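import Mathlib

/-!
# Structures with an order, two acyclic unary functions and local tournaments

A `Str X` consists of a binary relation `lt` (the linear order), two unary functions `f`, `g`
and, for each `x`, a binary relation `T x` (a tournament on the set `H_x` of the elements
properly below `x`).  From these data the ternary relation `Str.R` is defined.
-/

namespace H92SWIR

universe u

/-- The raw data. -/
structure Str (X : Type u) where
  lt : X → X → Prop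
  f : X → X
  g : X → X
  T : X → X → X → Prop

variable {X : Type u}

/-- `S.Reach x y`: the element `y` lies in the closure of `x` under `f` and `g`. -/
inductive Str.Reach (S : Str X) : X → X → Prop
  | refl (x : X) : S.Reach x x
  | f {x y : X} : S.Reach x y → S.Reach x (S.f y)
  | g {x y : X} : S.Reach x y → S.Reach x (S.g y)

/-- `S.Bel y x`: the element `y` is properly below `x`. -/
def Str.Bel (S : Str X) (y x : X) : Prop := S.Reach x y ∧ y ≠ x

/-- The triple `x, y, z` is cyclically increasing. -/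
def Str.Cyc (S : Str X) (x y z : X) : Prop :=
  (S.lt x y ∧ S.lt y z) ∨ (S.lt y z ∧ S.lt z x) ∨ (S.lt z x ∧ S.lt x y)

/-- The median (for `lt`) of the triple is properly below another member of the triple. -/
def Str.Med (S : Str X) (x y z : X) : Prop :=
  (((S.lt x y ∧ S.lt y z) ∨ (S.lt z y ∧ S.lt y x)) ∧ (S.Bel y x ∨ S.Bel y z)) ∨
  (((S.lt y x ∧ S.lt x z) ∨ (S.lt z x ∧ S.lt x y)) ∧ (S.Bel x y ∨ S.Bel x z)) ∨
  (((S.lt x z ∧ S.lt z y) ∨ (S.lt y z ∧ S.lt z x)) ∧ (S.Bel z x ∨ S.Bel z y))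

/-- The triple has a greatest element for `Bel`. -/
def Str.Top (S : Str X) (x y z : X) : Prop :=
  (S.Bel y x ∧ S.Bel z x) ∨ (S.Bel z y ∧ S.Bel x y) ∨ (S.Bel x z ∧ S.Bel y z)

/-- The ternary relation defined by the data. -/
def Str.R (S : Str X) (x y z : X) : Prop :=
  (x ≠ y ∧ y ≠ z ∧ z ≠ x) ∧
  ((S.Bel y x ∧ S.Bel z x ∧ S.T x y z) ∨ (S.Bel z y ∧ S.Bel x y ∧ S.T y z x) ∨
    (S.Bel x z ∧ S.Bel y z ∧ S.T z x y) ∨
    (¬ S.Top x y z ∧ (S.Cyc x y z ↔ S.Med x y z)))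

/-- Validity of the data on a set `C`. -/
structure Str.ValidOn (S : Str X) (C : Set X) : Prop where
  mem_f : ∀ x ∈ C, S.f x ∈ C
  mem_g : ∀ x ∈ C, S.g x ∈ C
  irrefl : ∀ x ∈ C, ¬ S.lt x x
  trans : ∀ x ∈ C, ∀ y ∈ C, ∀ z ∈ C, S.lt x y → S.lt y z → S.lt x z
  tri : ∀ x ∈ C, ∀ y ∈ C, x ≠ y → S.lt x y ∨ S.lt y x
  acyc : ∀ x ∈ C, ∀ y ∈ C, S.Reach x y → S.Reach y x → x = y
  tour : ∀ x ∈ C, ∀ y z, S.Bel y x → S.Bel z x → y ≠ z → (S.T x y z ↔ ¬ S.T x z y)
  cyc : ∀ x ∈ C, ∀ y z w, S.Bel y x → S.Bel z x → S.Bel w x → y ≠ z → z ≠ w → w ≠ y →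
    S.T x y z → S.T x z w → S.T x w y → S.R y z w

namespace Str

variable {S : Str X}

theorem Reach.trans' {x y z : X} (h : S.Reach x y) (h' : S.Reach y z) : S.Reach x z := by
  induction h' with
  | refl => exact h
  | f _ ih => exact ih.f
  | g _ ih => exact ih.g

theorem Reach.mem {C : Set X} (hf : ∀ x ∈ C, S.f x ∈ C) (hg : ∀ x ∈ C, S.g x ∈ C)
    {x y : X} (h : S.Reach x y) (hx : x ∈ C) : y ∈ C := by
  induction h with
  | refl => exact hx
  | f _ ih => exact hf _ (ih)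
  | g _ ih => exact hg _ (ih)

theorem R_ne {x y z : X} (h : S.R x y z) : x ≠ y ∧ y ≠ z ∧ z ≠ x := h.1

theorem Top_rot (x y z : X) : S.Top x y z ↔ S.Top y z x := by
  unfold Top; tauto

theorem Top_swap (x y z : X) : S.Top x y z ↔ S.Top x z y := by
  unfold Top; tauto

theorem Cyc_rot (x y z : X) : S.Cyc x y z ↔ S.Cyc y z x := by
  unfold Cyc; tauto

theorem Med_rot (x y z : X) : S.Med x y z ↔ S.Med y z x := by
  unfold Med; tauto

theorem Med_swap (x y z : X) : S.Med x y z ↔ S.Med x z y := by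
  unfold Med; tauto

/-- `R` is invariant under rotation. -/
theorem R_rot {x y z : X} (h : S.R x y z) : S.R y z x := by
  obtain ⟨⟨h1, h2, h3⟩, h⟩ := h
  refine ⟨⟨h2, h3, h1⟩, ?_⟩
  rcases h with h | h | h | ⟨h, h'⟩
  · exact Or.inr (Or.inr (Or.inl h))
  · exact Or.inl h
  · exact Or.inr (Or.inl h)
  · right; right; right
    rw [← Top_rot, ← Cyc_rot, ← Med_rot]
    exact ⟨h, h'⟩

theorem R_rot_iff (x y z : X) : S.R x y z ↔ S.R y z x :=
  ⟨R_rot, fun h => R_rot (R_rot h)⟩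

variable {C : Set X}

theorem ValidOn.reach_mem (h : S.ValidOn C) {x y : X} (hr : S.Reach x y) (hx : x ∈ C) : y ∈ C :=
  hr.mem h.mem_f h.mem_g hx

theorem ValidOn.bel_mem (h : S.ValidOn C) {x y : X} (hr : S.Bel y x) (hx : x ∈ C) : y ∈ C :=
  hr.1.mem h.mem_f h.mem_g hx

theorem ValidOn.bel_trans (h : S.ValidOn C) {x y z : X} (hx : x ∈ C)
    (h1 : S.Bel y x) (h2 : S.Bel z y) : S.Bel z x := by
  refine ⟨h1.1.trans' h2.1, ?_⟩
  rintro rfl
  exact h1.2 (h.acyc _ (h.bel_mem h1 hx) _ hx h2.1 h1.1)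

theorem ValidOn.bel_asymm (h : S.ValidOn C) {x y : X} (hx : x ∈ C)
    (h1 : S.Bel y x) (h2 : S.Bel x y) : False :=
  h1.2 (h.acyc _ (h.bel_mem h1 hx) _ hx h2.1 h1.1)

theorem ValidOn.lt_asymm (h : S.ValidOn C) {x y : X} (hx : x ∈ C) (hy : y ∈ C)
    (h1 : S.lt x y) (h2 : S.lt y x) : False :=
  h.irrefl x hx (h.trans x hx y hy x hx h1 h2)

/-- With a greatest element `R` is the local tournament. -/
theorem ValidOn.R_top (h : S.ValidOn C) {x y z : X} (hx : x ∈ C)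
    (hy : S.Bel y x) (hz : S.Bel z x) (hyz : y ≠ z) : S.R x y z ↔ S.T x y z := by
  constructor
  · rintro ⟨_, h1 | h1 | h1 | h1⟩
    · exact h1.2.2
    · exact (h.bel_asymm hx hy h1.2.1).elim
    · exact (h.bel_asymm hx hz h1.1).elim
    · exact (h1.1 (Or.inl ⟨hy, hz⟩)).elim
  · intro hT
    exact ⟨⟨hy.2.symm, hyz, hz.2⟩, Or.inl ⟨hy, hz, hT⟩⟩

/-- Without a greatest element `R` is given by the rule. -/
theorem R_rule {x y z : X} (hxy : x ≠ y) (hyz : y ≠ z) (hzx : z ≠ x) (ht : ¬ S.Top x y z) :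
    S.R x y z ↔ (S.Cyc x y z ↔ S.Med x y z) := by
  constructor
  · rintro ⟨_, h1 | h1 | h1 | h1⟩
    · exact (ht (Or.inl ⟨h1.1, h1.2.1⟩)).elim
    · exact (ht (Or.inr (Or.inl ⟨h1.1, h1.2.1⟩))).elim
    · exact (ht (Or.inr (Or.inr ⟨h1.1, h1.2.1⟩))).elim
    · exact h1.2
  · intro h1
    exact ⟨⟨hxy, hyz, hzx⟩, Or.inr (Or.inr (Or.inr ⟨ht, h1⟩))⟩

theorem ValidOn.Cyc_swap (h : S.ValidOn C) {x y z : X} (hx : x ∈ C) (hy : y ∈ C) (hz : z ∈ C)
    (hxy : x ≠ y) (hyz : y ≠ z) (hzx : z ≠ x) : S.Cyc x y z ↔ ¬ S.Cyc x z y := by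
  have a1 := fun h1 h2 => h.lt_asymm hx hy h1 h2
  have a2 := fun h1 h2 => h.lt_asymm hy hz h1 h2
  have a3 := fun h1 h2 => h.lt_asymm hz hx h1 h2
  have b1 := h.tri x hx y hy hxy
  have b2 := h.tri y hy z hz hyz
  have b3 := h.tri z hz x hx hzx
  have t1 := h.trans x hx y hy z hz
  have t2 := h.trans z hz y hy x hx
  unfold Cyc
  tauto

/-- `R` is a hypertournament: exactly one orientation. -/
theorem ValidOn.R_swap (h : S.ValidOn C) {x y z : X} (hx : x ∈ C) (hy : y ∈ C) (hz : z ∈ C)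
    (hxy : x ≠ y) (hyz : y ≠ z) (hzx : z ≠ x) : S.R x y z ↔ ¬ S.R x z y := by
  by_cases ht : S.Top x y z
  · rcases ht with ⟨h1, h2⟩ | ⟨h1, h2⟩ | ⟨h1, h2⟩
    · rw [h.R_top hx h1 h2 hyz, h.R_top hx h2 h1 hyz.symm]
      exact h.tour x hx y z h1 h2 hyz
    · rw [R_rot_iff x y z, h.R_top hy h1 h2 hzx, R_rot_iff x z y, R_rot_iff z y x,
        h.R_top hy h2 h1 hzx.symm]
      exact h.tour y hy z x h1 h2 hzx
    · rw [R_rot_iff x y z, R_rot_iff y z x, h.R_top hz h1 h2 hxy, R_rot_iff x z y,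
        h.R_top hz h2 h1 hxy.symm]
      exact h.tour z hz x y h1 h2 hxy
  · rw [R_rule hxy hyz hzx ht, R_rule hzx.symm hyz.symm hxy.symm (by rwa [← Top_swap]),
      h.Cyc_swap hx hy hz hxy hyz hzx, ← Med_swap]
    by_cases h1 : S.Cyc x z y <;> simp [h1]

end Str

end H92SWIR
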