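import Pool.Agent.H92SWIR.PIso

/-!
# One-point extensions
-/

namespace H92SWIR

universe u

variable {X : Type u}

open Classical in
/-- Add (or overwrite) the point `p`. -/
noncomputable def Str.ext (S : Str X) (p F G : X) (cut : X → Prop) (Tp : X → X → Prop) : Str X where
  lt := fun a b => if b = p then a ≠ p ∧ cut a else if a = p then ¬ cut b else S.lt a b
  f := fun a => if a = p then F else S.f a
  g := fun a => if a = p then G else S.g a
  T := fun x y z => if x = p then Tp y z else S.T x y z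

/-- The elements which will be properly below the new point. -/
def Str.Low (S : Str X) (p F G : X) (y : X) : Prop :=
  (F ≠ p ∧ S.Reach F y) ∨ (G ≠ p ∧ S.Reach G y)

/-- The hypotheses on the data of a one-point extension. -/
structure Str.ExtData (S : Str X) (C : Set X) (p F G : X) (cut : X → Prop)
    (Tp : X → X → Prop) : Prop where
  notin : p ∉ C
  memF : F ≠ p → F ∈ C
  memG : G ≠ p → G ∈ C
  lower : ∀ a ∈ C, ∀ b ∈ C, S.lt a b → cut b → cut a
  tour : ∀ y z, S.Low p F G y → S.Low p F G z → y ≠ z → (Tp y z ↔ ¬ Tp z y)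
  cyc : ∀ y z w, S.Low p F G y → S.Low p F G z → S.Low p F G w → y ≠ z → z ≠ w → w ≠ y →
    Tp y z → Tp z w → Tp w y → S.R y z w

section

variable {S : Str X} {C : Set X} {p F G : X} {cut : X → Prop} {Tp : X → X → Prop}

theorem ext_f_ne (S : Str X) {p F G : X} {cut : X → Prop} {Tp : X → X → Prop} {x : X}
    (h : x ≠ p) : (S.ext p F G cut Tp).f x = S.f x := by
  simp [Str.ext, h]

theorem ext_g_ne (S : Str X) {p F G : X} {cut : X → Prop} {Tp : X → X → Prop} {x : X}
    (h : x ≠ p) : (S.ext p F G cut Tp).g x = S.g x := by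
  simp [Str.ext, h]

theorem ext_f_self (S : Str X) {p F G : X} {cut : X → Prop} {Tp : X → X → Prop} :
    (S.ext p F G cut Tp).f p = F := by
  simp [Str.ext]

theorem ext_g_self (S : Str X) {p F G : X} {cut : X → Prop} {Tp : X → X → Prop} :
    (S.ext p F G cut Tp).g p = G := by
  simp [Str.ext]

theorem ext_lt_ne (S : Str X) {p F G : X} {cut : X → Prop} {Tp : X → X → Prop} {x y : X}
    (h : x ≠ p) (h' : y ≠ p) : (S.ext p F G cut Tp).lt x y ↔ S.lt x y := by
  simp [Str.ext, h, h']

theorem ext_lt_right (S : Str X) {p F G : X} {cut : X → Prop} {Tp : X → X → Prop} {x : X}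
    (h : x ≠ p) : (S.ext p F G cut Tp).lt x p ↔ cut x := by
  simp [Str.ext, h]

theorem ext_lt_left (S : Str X) {p F G : X} {cut : X → Prop} {Tp : X → X → Prop} {y : X}
    (h : y ≠ p) : (S.ext p F G cut Tp).lt p y ↔ ¬ cut y := by
  simp [Str.ext, h]

theorem ext_lt_self (S : Str X) {p F G : X} {cut : X → Prop} {Tp : X → X → Prop} :
    ¬ (S.ext p F G cut Tp).lt p p := by
  simp [Str.ext]

theorem ext_T_ne (S : Str X) {p F G : X} {cut : X → Prop} {Tp : X → X → Prop} {x y z : X}
    (h : x ≠ p) : (S.ext p F G cut Tp).T x y z ↔ S.T x y z := by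
  simp [Str.ext, h]

theorem ext_T_self (S : Str X) {p F G : X} {cut : X → Prop} {Tp : X → X → Prop} {y z : X} :
    (S.ext p F G cut Tp).T p y z ↔ Tp y z := by
  simp [Str.ext]

/-- The extension agrees with the old structure on closed sets not containing `p`. -/
theorem ext_agree (hf : ∀ x ∈ C, S.f x ∈ C) (hg : ∀ x ∈ C, S.g x ∈ C) (hp : p ∉ C) :
    PIso S (S.ext p F G cut Tp) C id := by
  have ne : ∀ x ∈ C, x ≠ p := by rintro x hx rfl; exact hp hx
  refine ⟨hf, hg, fun _ _ _ _ h => h, ?_, ?_, ?_, ?_⟩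
  · intro x hx; rw [id, id, ext_f_ne S (ne x hx)]
  · intro x hx; rw [id, id, ext_g_ne S (ne x hx)]
  · intro x hx y hy; rw [id, id, ext_lt_ne S (ne x hx) (ne y hy)]
  · intro x hx y z _ _ _; rw [id, id, id, ext_T_ne S (ne x hx)]

/-- Elements reachable from the new point. -/
theorem ext_reach (h : S.ValidOn C) (d : S.ExtData C p F G cut Tp) {y : X} :
    (S.ext p F G cut Tp).Reach p y ↔ y = p ∨ S.Low p F G y := by
  have hP : PIso S (S.ext p F G cut Tp) C id := ext_agree h.mem_f h.mem_g d.notin
  have ne : ∀ x ∈ C, x ≠ p := by rintro x hx rfl; exact d.notin hx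
  have lowC : ∀ y, S.Low p F G y → y ∈ C := by
    rintro y (⟨h1, h2⟩ | ⟨h1, h2⟩)
    · exact h.reach_mem h2 (d.memF h1)
    · exact h.reach_mem h2 (d.memG h1)
  have main : ∀ x y, (S.ext p F G cut Tp).Reach x y → x = p → (y = p ∨ S.Low p F G y) := by
    intro x y hr
    induction hr with
    | refl => exact fun h => Or.inl h
    | f hr ih =>
      intro hx
      rcases ih hx with e | e
      · rw [e, ext_f_self]
        by_cases hF : F = p
        · left; exact hF
        · right; exact Or.inl ⟨hF, .refl _⟩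
      · right
        rw [ext_f_ne S (ne _ (lowC _ e))]
        rcases e with ⟨h1, h2⟩ | ⟨h1, h2⟩
        · exact Or.inl ⟨h1, h2.f⟩
        · exact Or.inr ⟨h1, h2.f⟩
    | g hr ih =>
      intro hx
      rcases ih hx with e | e
      · rw [e, ext_g_self]
        by_cases hG : G = p
        · left; exact hG
        · right; exact Or.inr ⟨hG, .refl _⟩
      · right
        rw [ext_g_ne S (ne _ (lowC _ e))]
        rcases e with ⟨h1, h2⟩ | ⟨h1, h2⟩
        · exact Or.inl ⟨h1, h2.g⟩
        · exact Or.inr ⟨h1, h2.g⟩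
  constructor
  · exact fun hr => main p y hr rfl
  · rintro (rfl | ⟨h1, h2⟩ | ⟨h1, h2⟩)
    · exact .refl _
    · have a : (S.ext p F G cut Tp).Reach p F := by
        have := Str.Reach.f (Str.Reach.refl (S := S.ext p F G cut Tp) p)
        rwa [ext_f_self] at this
      exact a.trans' (hP.reach (d.memF h1) h2)
    · have a : (S.ext p F G cut Tp).Reach p G := by
        have := Str.Reach.g (Str.Reach.refl (S := S.ext p F G cut Tp) p)
        rwa [ext_g_self] at this
      exact a.trans' (hP.reach (d.memG h1) h2)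

theorem low_mem (h : S.ValidOn C) (d : S.ExtData C p F G cut Tp) {y : X}
    (hy : S.Low p F G y) : y ∈ C := by
  rcases hy with ⟨h1, h2⟩ | ⟨h1, h2⟩
  · exact h.reach_mem h2 (d.memF h1)
  · exact h.reach_mem h2 (d.memG h1)

theorem ext_bel (h : S.ValidOn C) (d : S.ExtData C p F G cut Tp) {y : X} :
    (S.ext p F G cut Tp).Bel y p ↔ S.Low p F G y := by
  unfold Str.Bel
  rw [ext_reach h d]
  constructor
  · rintro ⟨h1 | h1, h2⟩
    · exact (h2 h1).elim
    · exact h1
  · intro h1
    refine ⟨Or.inr h1, ?_⟩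
    rintro rfl
    exact d.notin (low_mem h d h1)

/-- The one-point extension is valid. -/
theorem ext_validOn (h : S.ValidOn C) (d : S.ExtData C p F G cut Tp) :
    (S.ext p F G cut Tp).ValidOn (insert p C) := by
  have hP : PIso S (S.ext p F G cut Tp) C id := ext_agree h.mem_f h.mem_g d.notin
  have ne : ∀ x ∈ C, x ≠ p := by rintro x hx rfl; exact d.notin hx
  have hv : (S.ext p F G cut Tp).ValidOn C := by
    have := hP.validOn_image h
    rwa [Set.image_id] at this
  have hlow : ∀ y, (S.ext p F G cut Tp).Bel y p → S.Low p F G y := fun y => (ext_bel h d).1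
  refine ⟨?_, ?_, ?_, ?_, ?_, ?_, ?_, ?_⟩
  · rintro x (rfl | hx)
    · rw [ext_f_self]
      by_cases hF : F = x
      · exact Or.inl hF
      · exact Or.inr (d.memF hF)
    · rw [ext_f_ne S (ne x hx)]; exact Or.inr (h.mem_f x hx)
  · rintro x (rfl | hx)
    · rw [ext_g_self]
      by_cases hG : G = x
      · exact Or.inl hG
      · exact Or.inr (d.memG hG)
    · rw [ext_g_ne S (ne x hx)]; exact Or.inr (h.mem_g x hx)
  · rintro x (rfl | hx)
    · exact ext_lt_self S
    · exact hv.irrefl x hx
  · rintro x (rfl | hx) y (rfl | hy) z (rfl | hz)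
    · exact fun h1 _ => h1
    · exact fun h1 _ => (ext_lt_self S h1).elim
    · rw [ext_lt_left S (ne y hy), ext_lt_right S (ne y hy)]
      exact fun h1 h2 => (h1 h2).elim
    · rw [ext_lt_left S (ne y hy), ext_lt_left S (ne z hz), ext_lt_ne S (ne y hy) (ne z hz)]
      exact fun h1 h2 h3 => h1 (d.lower y hy z hz h2 h3)
    · exact fun _ h2 => (ext_lt_self S h2).elim
    · rw [ext_lt_left S (ne z hz), ext_lt_right S (ne x hx), ext_lt_ne S (ne x hx) (ne z hz)]
      intro h1 h2
      have hxz : x ≠ z := by rintro rfl; exact h2 h1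
      rcases h.tri x hx z hz hxz with h3 | h3
      · exact h3
      · exact (h2 (d.lower z hz x hx h3 h1)).elim
    · rw [ext_lt_right S (ne x hx), ext_lt_right S (ne y hy), ext_lt_ne S (ne x hx) (ne y hy)]
      exact fun h1 h2 => d.lower x hx y hy h1 h2
    · exact hv.trans x hx y hy z hz
  · rintro x (rfl | hx) y (rfl | hy) hne
    · exact (hne rfl).elim
    · rw [ext_lt_left S (ne y hy), ext_lt_right S (ne y hy)]
      exact (em (cut y)).symm
    · rw [ext_lt_left S (ne x hx), ext_lt_right S (ne x hx)]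
      exact em (cut x)
    · exact hv.tri x hx y hy hne
  · rintro x (rfl | hx) y (rfl | hy) h1 h2
    · rfl
    · exact (d.notin (hv.reach_mem h2 hy)).elim
    · exact (d.notin (hv.reach_mem h1 hx)).elim
    · exact hv.acyc x hx y hy h1 h2
  · rintro x (rfl | hx) y z h1 h2 hne
    · rw [ext_T_self, ext_T_self]
      exact d.tour y z (hlow y h1) (hlow z h2) hne
    · exact hv.tour x hx y z h1 h2 hne
  · rintro x (rfl | hx) y z w h1 h2 h3 n1 n2 n3
    · rw [ext_T_self, ext_T_self, ext_T_self]
      intro t1 t2 t3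
      have := d.cyc y z w (hlow y h1) (hlow z h2) (hlow w h3) n1 n2 n3 t1 t2 t3
      exact (hP.R_iff (low_mem h d (hlow y h1)) (low_mem h d (hlow z h2))
        (low_mem h d (hlow w h3))).1 this
    · exact hv.cyc x hx y z w h1 h2 h3 n1 n2 n3

end

end H92SWIR
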