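import Pool.Agent.H92SWIR.Ext

/-!
# The generic structure on `ℕ`
-/

namespace H92SWIR

universe u

variable {X : Type u}

/-- The elements which will be properly below a new point with `f`-value `F` and `g`-value `G`
(`none` means: the point itself). -/
def Str.LowO (S : Str X) (F G : Option X) (y : X) : Prop :=
  (∃ a, F = some a ∧ S.Reach a y) ∨ (∃ a, G = some a ∧ S.Reach a y)

/-- A rich structure: valid, with a rank function, and every admissible one-point extension of a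
finite closed set is realised. -/
structure Str.Rich (S : Str X) : Prop where
  valid : S.ValidOn Set.univ
  rank : ∃ r : X → ℕ, Function.Injective r ∧ (∀ x, r (S.f x) ≤ r x) ∧ (∀ x, r (S.g x) ≤ r x)
  ext : ∀ (B : Finset X) (F G : Option X) (cut : X → Prop) (T : X → X → Prop),
    (∀ b ∈ B, S.f b ∈ B) → (∀ b ∈ B, S.g b ∈ B) → (∀ a, F = some a → a ∈ B) →
    (∀ a, G = some a → a ∈ B) →
    (∀ a ∈ B, ∀ b ∈ B, S.lt a b → cut b → cut a) →
    (∀ y z, S.LowO F G y → S.LowO F G z → y ≠ z → (T y z ↔ ¬ T z y)) →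
    (∀ y z w, S.LowO F G y → S.LowO F G z → S.LowO F G w → y ≠ z → z ≠ w → w ≠ y →
      T y z → T z w → T w y → S.R y z w) →
    ∃ x, x ∉ B ∧ S.f x = F.getD x ∧ S.g x = G.getD x ∧ (∀ b ∈ B, S.lt b x ↔ cut b) ∧
      (∀ y z, S.LowO F G y → S.LowO F G z → y ≠ z → (S.T x y z ↔ T y z))

theorem Str.low_getD (S : Str X) {B : Finset X} {p : X} (hp : p ∉ B) {F G : Option X}
    (hF : ∀ a, F = some a → a ∈ B) (hG : ∀ a, G = some a → a ∈ B) (y : X) :
    S.Low p (F.getD p) (G.getD p) y ↔ S.LowO F G y := by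
  have key : ∀ (F : Option X), (∀ a, F = some a → a ∈ B) →
      ((F.getD p ≠ p ∧ S.Reach (F.getD p) y) ↔ (∃ a, F = some a ∧ S.Reach a y)) := by
    intro F hF
    cases F with
    | none => simp
    | some a =>
      have : a ≠ p := by rintro rfl; exact hp (hF _ rfl)
      simp [this]
  unfold Str.Low Str.LowO
  rw [key F hF, key G hG]

/-- Tasks for the construction. -/
abbrev Task := Finset ℕ × Option ℕ × Option ℕ × Finset ℕ × Finset (ℕ × ℕ)

/-- The task `t` can be carried out at stage `k`. -/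
def Str.Ok (S : Str ℕ) (k : ℕ) (t : Task) : Prop :=
  (∀ b ∈ t.1, b < k) ∧ (∀ b ∈ t.1, S.f b ∈ t.1) ∧ (∀ b ∈ t.1, S.g b ∈ t.1) ∧
  (∀ a, t.2.1 = some a → a ∈ t.1) ∧ (∀ a, t.2.2.1 = some a → a ∈ t.1) ∧
  (∀ a ∈ t.1, ∀ b ∈ t.1, S.lt a b → b ∈ t.2.2.2.1 → a ∈ t.2.2.2.1) ∧
  (∀ y z, S.LowO t.2.1 t.2.2.1 y → S.LowO t.2.1 t.2.2.1 z → y ≠ z →
    ((y, z) ∈ t.2.2.2.2 ↔ ¬ (z, y) ∈ t.2.2.2.2)) ∧
  (∀ y z w, S.LowO t.2.1 t.2.2.1 y → S.LowO t.2.1 t.2.2.1 z → S.LowO t.2.1 t.2.2.1 w →
    y ≠ z → z ≠ w → w ≠ y →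
    (y, z) ∈ t.2.2.2.2 → (z, w) ∈ t.2.2.2.2 → (w, y) ∈ t.2.2.2.2 → S.R y z w)

/-- The structure after the task `t` has been carried out at stage `k`. -/
noncomputable def Str.run (S : Str ℕ) (k : ℕ) (t : Task) : Str ℕ :=
  S.ext k (t.2.1.getD k) (t.2.2.1.getD k)
    (fun a => ∃ b ∈ t.1, b ∈ t.2.2.2.1 ∧ (a = b ∨ S.lt a b)) (fun y z => (y, z) ∈ t.2.2.2.2)

/-- The structure after an idle stage. -/
noncomputable def Str.idle (S : Str ℕ) (k : ℕ) : Str ℕ :=
  S.ext k k k (fun _ => False) (fun _ _ => False)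

open Classical in
/-- One step of the construction. -/
noncomputable def step (k : ℕ) (S : Str ℕ) : Str ℕ :=
  match Encodable.decode (α := Task) k.unpair.1 with
  | some t => if S.Ok k t then S.run k t else S.idle k
  | none => S.idle k

/-- The stages of the construction. -/
noncomputable def stage : ℕ → Str ℕ
  | 0 => ⟨fun _ _ => False, id, id, fun _ _ _ => False⟩
  | k + 1 => step k (stage k)

/-- The initial segment. -/
def seg (k : ℕ) : Set ℕ := {i | i < k}

theorem mem_seg {i k : ℕ} : i ∈ seg k ↔ i < k := Iff.rfl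

theorem seg_succ (k : ℕ) : seg (k + 1) = insert k (seg k) := by
  ext i; simp only [mem_seg, Set.mem_insert_iff]; omega

theorem idle_data {S : Str ℕ} {k : ℕ} :
    S.ExtData (seg k) k k k (fun _ => False) (fun _ _ => False) := by
  refine ⟨?_, ?_, ?_, ?_, ?_, ?_⟩
  · simp [mem_seg]
  · intro h; exact (h rfl).elim
  · intro h; exact (h rfl).elim
  · intro a _ b _ _ h; exact h
  · rintro y z (⟨h, _⟩ | ⟨h, _⟩) <;> exact (h rfl).elim
  · rintro y z w (⟨h, _⟩ | ⟨h, _⟩) <;> exact (h rfl).elim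

theorem run_data {S : Str ℕ} {k : ℕ} (hS : S.ValidOn (seg k)) {t : Task} (ht : S.Ok k t) :
    S.ExtData (seg k) k (t.2.1.getD k) (t.2.2.1.getD k)
      (fun a => ∃ b ∈ t.1, b ∈ t.2.2.2.1 ∧ (a = b ∨ S.lt a b))
      (fun y z => (y, z) ∈ t.2.2.2.2) := by
  obtain ⟨h1, h2, h3, h4, h5, h6, h7, h8⟩ := ht
  have hk : k ∉ t.1 := fun h => lt_irrefl _ (h1 k h)
  refine ⟨?_, ?_, ?_, ?_, ?_, ?_⟩
  · simp [mem_seg]
  · intro h
    cases hF : t.2.1 with
    | none => rw [hF] at h; exact (h rfl).elim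
    | some a => exact h1 a (h4 a hF)
  · intro h
    cases hF : t.2.2.1 with
    | none => rw [hF] at h; exact (h rfl).elim
    | some a => exact h1 a (h5 a hF)
  · rintro a ha b hb hab ⟨c, hc, hc', h⟩
    refine ⟨c, hc, hc', Or.inr ?_⟩
    rcases h with rfl | h
    · exact hab
    · exact hS.trans a ha b hb c (h1 c hc) hab h
  · intro y z hy hz hne
    rw [S.low_getD hk h4 h5] at hy hz
    exact h7 y z hy hz hne
  · intro y z w hy hz hw n1 n2 n3
    rw [S.low_getD hk h4 h5] at hy hz hw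
    exact h8 y z w hy hz hw n1 n2 n3

theorem step_spec (k : ℕ) (S : Str ℕ) :
    (step k S = S.idle k) ∨ (∃ t, S.Ok k t ∧ step k S = S.run k t) := by
  unfold step
  split
  · next t _ =>
    by_cases h : S.Ok k t
    · exact Or.inr ⟨t, h, by rw [if_pos h]⟩
    · exact Or.inl (by rw [if_neg h])
  · exact Or.inl rfl

theorem step_valid (k : ℕ) (S : Str ℕ) (hS : S.ValidOn (seg k)) :
    (step k S).ValidOn (seg (k + 1)) := by
  rw [seg_succ]
  rcases step_spec k S with h | ⟨t, ht, h⟩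
  · rw [h]; exact ext_validOn hS idle_data
  · rw [h]; exact ext_validOn hS (run_data hS ht)

theorem step_agree (k : ℕ) (S : Str ℕ) (hS : S.ValidOn (seg k)) :
    PIso S (step k S) (seg k) id := by
  rcases step_spec k S with h | ⟨t, ht, h⟩
  · rw [h]; exact ext_agree hS.mem_f hS.mem_g (by simp [mem_seg])
  · rw [h]; exact ext_agree hS.mem_f hS.mem_g (by simp [mem_seg])

theorem step_T_of_lt (k : ℕ) (S : Str ℕ) {x y z : ℕ} (hx : x < k) :
    (step k S).T x y z ↔ S.T x y z := by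
  rcases step_spec k S with h | ⟨t, ht, h⟩
  · rw [h]; exact ext_T_ne S hx.ne
  · rw [h]; exact ext_T_ne S hx.ne

theorem step_f_le (k : ℕ) (S : Str ℕ) : (step k S).f k ≤ k ∧ (step k S).g k ≤ k := by
  rcases step_spec k S with h | ⟨t, ht, h⟩
  · rw [h]; exact ⟨(ext_f_self S).le, (ext_g_self S).le⟩
  · rw [h]
    obtain ⟨h1, h2, h3, h4, h5, -⟩ := ht
    constructor
    · refine (ext_f_self S).le.trans ?_
      cases hF : t.2.1 with
      | none => exact le_rfl
      | some a => exact (h1 a (h4 a hF)).le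
    · refine (ext_g_self S).le.trans ?_
      cases hF : t.2.2.1 with
      | none => exact le_rfl
      | some a => exact (h1 a (h5 a hF)).le

theorem stage_valid (k : ℕ) : (stage k).ValidOn (seg k) := by
  induction k with
  | zero =>
    have h0 : ∀ x, x ∉ seg 0 := fun x h => absurd h (Nat.not_lt_zero x)
    exact ⟨fun x hx => (h0 x hx).elim, fun x hx => (h0 x hx).elim, fun x hx => (h0 x hx).elim,
      fun x hx => (h0 x hx).elim, fun x hx => (h0 x hx).elim, fun x hx => (h0 x hx).elim,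
      fun x hx => (h0 x hx).elim, fun x hx => (h0 x hx).elim⟩
  | succ k ih => exact step_valid k (stage k) ih

theorem seg_mono {j k : ℕ} (h : j ≤ k) : seg j ⊆ seg k := fun _ hx => lt_of_lt_of_le hx h

theorem stage_agree {j k : ℕ} (h : j ≤ k) : PIso (stage j) (stage k) (seg j) id := by
  induction k, h using Nat.le_induction with
  | base => exact PIso.refl' (stage_valid j).mem_f (stage_valid j).mem_g
  | succ k hk ih =>
    have h1 := step_agree k (stage k) (stage_valid k)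
    exact ih.comp h1 (fun x hx => seg_mono hk hx)

theorem stage_f_le (k x : ℕ) (h : x < k) : (stage k).f x ≤ x ∧ (stage k).g x ≤ x := by
  have h1 := step_f_le x (stage x)
  have h2 := stage_agree (Nat.succ_le_of_lt h)
  have h3 := h2.f x (Nat.lt_succ_self x)
  have h4 := h2.g x (Nat.lt_succ_self x)
  simp only [id] at h3 h4
  rw [← h3, ← h4]
  exact h1

/-- The generic structure on `ℕ`. -/
noncomputable def gen : Str ℕ where
  lt := fun a b => (stage (max a b + 1)).lt a b
  f := fun a => (stage (a + 1)).f a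
  g := fun a => (stage (a + 1)).g a
  T := fun a b c => (stage (a + 1)).T a b c

theorem gen_f (k : ℕ) : gen.f k = (stage (k + 1)).f k := rfl

theorem gen_g (k : ℕ) : gen.g k = (stage (k + 1)).g k := rfl

theorem gen_T (k y z : ℕ) : gen.T k y z = (stage (k + 1)).T k y z := rfl

theorem gen_lt (a b : ℕ) : gen.lt a b = (stage (max a b + 1)).lt a b := rfl

theorem gen_agree (k : ℕ) : PIso (stage k) gen (seg k) id := by
  refine ⟨(stage_valid k).mem_f, (stage_valid k).mem_g, fun _ _ _ _ h => h, ?_, ?_, ?_, ?_⟩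
  · intro x hx
    have h := (stage_agree (Nat.succ_le_of_lt hx)).f x (Nat.lt_succ_self x)
    exact h.symm
  · intro x hx
    have h := (stage_agree (Nat.succ_le_of_lt hx)).g x (Nat.lt_succ_self x)
    exact h.symm
  · intro x hx y hy
    have hmax : max x y < k := max_lt hx hy
    have h := (stage_agree (Nat.succ_le_of_lt hmax)).lt x
      (Nat.lt_succ_of_le (le_max_left x y)) y (Nat.lt_succ_of_le (le_max_right x y))
    exact h.symm
  · intro x hx y z h1 h2 hne
    have hP := stage_agree (Nat.succ_le_of_lt hx)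
    have hx' : x ∈ seg (x + 1) := Nat.lt_succ_self x
    obtain ⟨y', b1, e1⟩ := hP.bel_inv (x := x) hx' h1
    obtain ⟨z', b2, e2⟩ := hP.bel_inv (x := x) hx' h2
    simp only [id] at e1 e2
    subst e1 e2
    exact (hP.T x hx' _ _ b1 b2 hne).symm

theorem gen_valid_seg (k : ℕ) : gen.ValidOn (seg k) := by
  have := (gen_agree k).validOn_image (stage_valid k)
  rwa [Set.image_id] at this

theorem gen_valid : gen.ValidOn Set.univ := by
  refine ⟨fun _ _ => trivial, fun _ _ => trivial, ?_, ?_, ?_, ?_, ?_, ?_⟩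
  · intro x _; exact (gen_valid_seg (x + 1)).irrefl x (Nat.lt_succ_self x)
  · intro x _ y _ z _
    exact (gen_valid_seg (x + y + z + 1)).trans x (by rw [mem_seg]; omega) y
      (by rw [mem_seg]; omega) z (by rw [mem_seg]; omega)
  · intro x _ y _
    exact (gen_valid_seg (x + y + 1)).tri x (by rw [mem_seg]; omega) y (by rw [mem_seg]; omega)
  · intro x _ y _
    exact (gen_valid_seg (x + y + 1)).acyc x (by rw [mem_seg]; omega) y (by rw [mem_seg]; omega)
  · intro x _; exact (gen_valid_seg (x + 1)).tour x (Nat.lt_succ_self x)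
  · intro x _; exact (gen_valid_seg (x + 1)).cyc x (Nat.lt_succ_self x)

theorem lowO_iff {k : ℕ} {F G : Option ℕ} (hF : ∀ a, F = some a → a < k)
    (hG : ∀ a, G = some a → a < k) (y : ℕ) :
    (stage k).LowO F G y ↔ gen.LowO F G y := by
  have hP := gen_agree k
  have key : ∀ F : Option ℕ, (∀ a, F = some a → a < k) →
      ((∃ a, F = some a ∧ (stage k).Reach a y) ↔ (∃ a, F = some a ∧ gen.Reach a y)) := by
    intro F hF
    constructor
    · rintro ⟨a, ha, hr⟩
      exact ⟨a, ha, hP.reach (hF a ha) hr⟩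
    · rintro ⟨a, ha, hr⟩
      obtain ⟨y', h1, h2⟩ := hP.reach_inv (x := a) (hF a ha) hr
      simp only [id] at h2
      subst h2
      exact ⟨a, ha, h1⟩
  unfold Str.LowO
  rw [key F hF, key G hG]

theorem lowO_lt {k : ℕ} {F G : Option ℕ} (hF : ∀ a, F = some a → a < k)
    (hG : ∀ a, G = some a → a < k) {y : ℕ} (h : gen.LowO F G y) : y < k := by
  rcases h with ⟨a, ha, hr⟩ | ⟨a, ha, hr⟩
  · exact (gen_valid_seg k).reach_mem hr (hF a ha)
  · exact (gen_valid_seg k).reach_mem hr (hG a ha)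

theorem gen_ext (B : Finset ℕ) (F G : Option ℕ) (cut : ℕ → Prop) (T : ℕ → ℕ → Prop)
    (h2 : ∀ b ∈ B, gen.f b ∈ B) (h3 : ∀ b ∈ B, gen.g b ∈ B) (h4 : ∀ a, F = some a → a ∈ B)
    (h5 : ∀ a, G = some a → a ∈ B)
    (h6 : ∀ a ∈ B, ∀ b ∈ B, gen.lt a b → cut b → cut a)
    (h7 : ∀ y z, gen.LowO F G y → gen.LowO F G z → y ≠ z → (T y z ↔ ¬ T z y))
    (h8 : ∀ y z w, gen.LowO F G y → gen.LowO F G z → gen.LowO F G w → y ≠ z → z ≠ w → w ≠ y →
      T y z → T z w → T w y → gen.R y z w) :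
    ∃ x, x ∉ B ∧ gen.f x = F.getD x ∧ gen.g x = G.getD x ∧ (∀ b ∈ B, gen.lt b x ↔ cut b) ∧
      (∀ y z, gen.LowO F G y → gen.LowO F G z → y ≠ z → (gen.T x y z ↔ T y z)) := by
  classical
  obtain ⟨t, htt⟩ : ∃ t : Task, t = (B, F, G, B.filter cut,
    (B ×ˢ B).filter (fun q => T q.1 q.2)) := ⟨_, rfl⟩
  obtain ⟨k, hBk, hdec⟩ : ∃ k : ℕ, (∀ b ∈ B, b < k) ∧
      Encodable.decode (α := Task) k.unpair.1 = some t := by
    refine ⟨Nat.pair (Encodable.encode t) (B.sup id + 1), ?_, ?_⟩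
    · intro b hb
      have h1 : b ≤ B.sup id := Finset.le_sup (f := id) hb
      have h2 : B.sup id + 1 ≤ Nat.pair (Encodable.encode t) (B.sup id + 1) :=
        Nat.right_le_pair _ _
      omega
    · rw [Nat.unpair_pair]
      exact Encodable.encodek t
  have hP := gen_agree k
  have hFk : ∀ a, F = some a → a < k := fun a ha => hBk a (h4 a ha)
  have hGk : ∀ a, G = some a → a < k := fun a ha => hBk a (h5 a ha)
  have fe : ∀ b, b < k → (stage k).f b = gen.f b := fun b hb => hP.f b hb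
  have ge : ∀ b, b < k → (stage k).g b = gen.g b := fun b hb => hP.g b hb
  have lte : ∀ a b, a < k → b < k → ((stage k).lt a b ↔ gen.lt a b) :=
    fun a b ha hb => hP.lt a ha b hb
  have lowB : ∀ y, gen.LowO F G y → y ∈ B := by
    have aux : ∀ a y, gen.Reach a y → a ∈ B → y ∈ B := by
      intro a y hr ha
      exact hr.mem (C := (B : Set ℕ)) (fun x hx => h2 x hx) (fun x hx => h3 x hx) ha
    rintro y (⟨a, ha, hr⟩ | ⟨a, ha, hr⟩)
    · exact aux a y hr (h4 a ha)
    · exact aux a y hr (h5 a ha)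
  have memT : ∀ y z, y ∈ B → z ∈ B → ((y, z) ∈ (B ×ˢ B).filter (fun q => T q.1 q.2) ↔ T y z) := by
    intro y z hy hz
    simp [hy, hz]
  have hok : (stage k).Ok k t := by
    rw [htt]
    refine ⟨hBk, ?_, ?_, h4, h5, ?_, ?_, ?_⟩
    · intro b hb; rw [fe b (hBk b hb)]; exact h2 b hb
    · intro b hb; rw [ge b (hBk b hb)]; exact h3 b hb
    · intro a ha b hb hab hc
      rw [lte a b (hBk a ha) (hBk b hb)] at hab
      exact Finset.mem_filter.2 ⟨ha, h6 a ha b hb hab (Finset.mem_filter.1 hc).2⟩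
    · intro y z hy hz hne
      rw [lowO_iff hFk hGk] at hy hz
      show (y, z) ∈ (B ×ˢ B).filter _ ↔ ¬ (z, y) ∈ (B ×ˢ B).filter _
      rw [memT y z (lowB y hy) (lowB z hz), memT z y (lowB z hz) (lowB y hy)]
      exact h7 y z hy hz hne
    · intro y z w hy hz hw n1 n2 n3
      rw [lowO_iff hFk hGk] at hy hz hw
      show (y, z) ∈ (B ×ˢ B).filter _ → (z, w) ∈ (B ×ˢ B).filter _ →
        (w, y) ∈ (B ×ˢ B).filter _ → _
      rw [memT y z (lowB y hy) (lowB z hz), memT z w (lowB z hz) (lowB w hw),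
        memT w y (lowB w hw) (lowB y hy)]
      intro t1 t2 t3
      exact (hP.R_iff (hBk y (lowB y hy)) (hBk z (lowB z hz)) (hBk w (lowB w hw))).2
        (h8 y z w hy hz hw n1 n2 n3 t1 t2 t3)
  have hstep : stage (k + 1) = (stage k).run k t := by
    have h0 : stage (k + 1) = step k (stage k) := rfl
    rw [h0]
    unfold step
    rw [hdec]
    simp only [if_pos hok]
  have hkB : k ∉ B := fun h => lt_irrefl _ (hBk k h)
  unfold Str.run at hstep
  rw [htt] at hstep
  refine ⟨k, hkB, ?_, ?_, ?_, ?_⟩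
  · rw [gen_f, hstep, ext_f_self]
  · rw [gen_g, hstep, ext_g_self]
  · intro b hb
    rw [gen_lt, max_eq_right (hBk b hb).le, hstep, ext_lt_right _ (hBk b hb).ne]
    constructor
    · rintro ⟨c, hc, hc', h | h⟩
      · rw [h]; exact (Finset.mem_filter.1 hc').2
      · exact h6 b hb c hc ((lte b c (hBk b hb) (hBk c hc)).1 h) (Finset.mem_filter.1 hc').2
    · intro h
      exact ⟨b, hb, Finset.mem_filter.2 ⟨hb, h⟩, Or.inl rfl⟩
  · intro y z hy hz _
    rw [gen_T, hstep, ext_T_self]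
    exact memT y z (lowB y hy) (lowB z hz)

theorem gen_rich : gen.Rich where
  valid := gen_valid
  rank := ⟨id, Function.injective_id, fun x => (stage_f_le (x + 1) x (Nat.lt_succ_self x)).1,
    fun x => (stage_f_le (x + 1) x (Nat.lt_succ_self x)).2⟩
  ext := gen_ext

end H92SWIR
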