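import Pool.Agent.H92SWIR.Gen

/-!
# Extending partial isomorphisms in rich structures
-/

namespace H92SWIR

universe u v

variable {X : Type u} {Y : Type v}

/-- First step of a reachability path. -/
theorem Str.reach_cases {S : Str X} {x y : X} (h : S.Reach x y) :
    y = x ∨ (S.f x ≠ x ∧ S.Reach (S.f x) y) ∨ (S.g x ≠ x ∧ S.Reach (S.g x) y) := by
  induction h with
  | refl => exact Or.inl rfl
  | @f y h ih =>
    rcases ih with e | ⟨e, h'⟩ | ⟨e, h'⟩
    · rw [e]
      by_cases hx : S.f x = x
      · exact Or.inl hx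
      · exact Or.inr (Or.inl ⟨hx, .refl _⟩)
    · exact Or.inr (Or.inl ⟨e, h'.f⟩)
    · exact Or.inr (Or.inr ⟨e, h'.f⟩)
  | @g y h ih =>
    rcases ih with e | ⟨e, h'⟩ | ⟨e, h'⟩
    · rw [e]
      by_cases hx : S.g x = x
      · exact Or.inl hx
      · exact Or.inr (Or.inr ⟨hx, .refl _⟩)
    · exact Or.inr (Or.inl ⟨e, h'.g⟩)
    · exact Or.inr (Or.inr ⟨e, h'.g⟩)

theorem Str.ValidOn.bel_iff_step {S : Str X} {C : Set X} (h : S.ValidOn C) {x y : X}
    (hx : x ∈ C) :
    S.Bel y x ↔ (S.f x ≠ x ∧ S.Reach (S.f x) y) ∨ (S.g x ≠ x ∧ S.Reach (S.g x) y) := by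
  constructor
  · rintro ⟨h1, h2⟩
    rcases Str.reach_cases h1 with e | e
    · exact (h2 e).elim
    · exact e
  · have rf : S.Reach x (S.f x) := (Str.Reach.refl x).f
    have rg : S.Reach x (S.g x) := (Str.Reach.refl x).g
    rintro (⟨h1, h2⟩ | ⟨h1, h2⟩)
    · refine ⟨rf.trans' h2, ?_⟩
      rintro rfl
      exact h1 (h.acyc _ (h.mem_f _ hx) _ hx h2 rf)
    · refine ⟨rg.trans' h2, ?_⟩
      rintro rfl
      exact h1 (h.acyc _ (h.mem_g _ hx) _ hx h2 rg)

open Classical in
/-- One-step extension of a partial isomorphism into a rich structure. -/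
theorem one_step {S : Str X} {S' : Str Y} (hR : S'.Rich) {A : Finset X} {φ : X → Y}
    (h : PIso S S' (A : Set X) φ) {m : X} (hm : m ∉ A)
    (hv : S.ValidOn (insert m (A : Set X)))
    (C : Finset Y) (hCf : ∀ c ∈ C, S'.f c ∈ C) (hCg : ∀ c ∈ C, S'.g c ∈ C)
    (hAC : ∀ a ∈ A, φ a ∈ C) :
    ∃ x, x ∉ C ∧ PIso S S' (insert m (A : Set X)) (Function.update φ m x) ∧
      (∀ c ∈ C, S'.lt c x ↔ ∃ a ∈ A, S.lt a m ∧ (c = φ a ∨ S'.lt c (φ a))) := by
  have hmm : m ∈ insert m (A : Set X) := Set.mem_insert _ _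
  have hAi : ∀ a ∈ A, a ∈ insert m (A : Set X) := fun a ha => Set.mem_insert_of_mem _ ha
  have hvS' := hR.valid
  have memf : S.f m ≠ m → S.f m ∈ A := by
    intro hne
    rcases hv.mem_f m hmm with e | e
    · exact (hne e).elim
    · exact e
  have memg : S.g m ≠ m → S.g m ∈ A := by
    intro hne
    rcases hv.mem_g m hmm with e | e
    · exact (hne e).elim
    · exact e
  obtain ⟨F, hF⟩ : ∃ F : Option Y, F = if S.f m = m then none else some (φ (S.f m)) := ⟨_, rfl⟩
  obtain ⟨G, hG⟩ : ∃ G : Option Y, G = if S.g m = m then none else some (φ (S.g m)) := ⟨_, rfl⟩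
  have hFa : ∀ a, F = some a → S.f m ≠ m ∧ a = φ (S.f m) := by
    intro a ha
    rw [hF] at ha
    split_ifs at ha with h1
    exact ⟨h1, (Option.some.inj ha).symm⟩
  have hGa : ∀ a, G = some a → S.g m ≠ m ∧ a = φ (S.g m) := by
    intro a ha
    rw [hG] at ha
    split_ifs at ha with h1
    exact ⟨h1, (Option.some.inj ha).symm⟩
  have belA : ∀ y, S.Bel y m → y ∈ A := by
    intro y hy
    rcases hv.bel_mem hy hmm with e | e
    · exact (hy.2 e).elim
    · exact e
  have low : ∀ y', S'.LowO F G y' ↔ ∃ y, S.Bel y m ∧ φ y = y' := by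
    intro y'
    constructor
    · rintro (⟨a, ha, hr⟩ | ⟨a, ha, hr⟩)
      · obtain ⟨h1, rfl⟩ := hFa a ha
        obtain ⟨y, h2, h3⟩ := h.reach_inv (memf h1) hr
        exact ⟨y, (hv.bel_iff_step hmm).2 (Or.inl ⟨h1, h2⟩), h3⟩
      · obtain ⟨h1, rfl⟩ := hGa a ha
        obtain ⟨y, h2, h3⟩ := h.reach_inv (memg h1) hr
        exact ⟨y, (hv.bel_iff_step hmm).2 (Or.inr ⟨h1, h2⟩), h3⟩
    · rintro ⟨y, hy, rfl⟩
      rcases (hv.bel_iff_step hmm).1 hy with ⟨h1, h2⟩ | ⟨h1, h2⟩
      · exact Or.inl ⟨φ (S.f m), by rw [hF, if_neg h1], h.reach (memf h1) h2⟩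
      · exact Or.inr ⟨φ (S.g m), by rw [hG, if_neg h1], h.reach (memg h1) h2⟩
  have Tspec : ∀ y ∈ A, ∀ z ∈ A,
      ((∃ a ∈ A, ∃ b ∈ A, φ a = φ y ∧ φ b = φ z ∧ S.T m a b) ↔ S.T m y z) := by
    intro y hy z hz
    constructor
    · rintro ⟨a, ha, b, hb, e1, e2, t⟩
      rw [h.inj ha hy e1, h.inj hb hz e2] at t
      exact t
    · intro t; exact ⟨y, hy, z, hz, rfl, rfl, t⟩
  obtain ⟨x, hxC, hxf, hxg, hxlt, hxT⟩ := hR.ext C F G
    (fun c => ∃ a ∈ A, S.lt a m ∧ (c = φ a ∨ S'.lt c (φ a)))
    (fun y z => ∃ a ∈ A, ∃ b ∈ A, φ a = y ∧ φ b = z ∧ S.T m a b)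
    hCf hCg
    (fun a ha => by
      obtain ⟨h1, rfl⟩ := hFa a ha
      exact hAC _ (memf h1))
    (fun a ha => by
      obtain ⟨h1, rfl⟩ := hGa a ha
      exact hAC _ (memg h1))
    (by
      rintro c hc c' hc' hcc ⟨a, ha, h1, h2⟩
      refine ⟨a, ha, h1, Or.inr ?_⟩
      rcases h2 with rfl | h2
      · exact hcc
      · exact hvS'.trans c trivial c' trivial _ trivial hcc h2)
    (by
      intro y' z' hy' hz' hne
      obtain ⟨y, hy, rfl⟩ := (low y').1 hy'
      obtain ⟨z, hz, rfl⟩ := (low z').1 hz'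
      have hne' : y ≠ z := fun e => hne (by rw [e])
      rw [Tspec y (belA y hy) z (belA z hz), Tspec z (belA z hz) y (belA y hy)]
      exact hv.tour m hmm y z hy hz hne')
    (by
      intro y' z' w' hy' hz' hw' n1 n2 n3
      obtain ⟨y, hy, rfl⟩ := (low y').1 hy'
      obtain ⟨z, hz, rfl⟩ := (low z').1 hz'
      obtain ⟨w, hw, rfl⟩ := (low w').1 hw'
      have m1 : y ≠ z := fun e => n1 (by rw [e])
      have m2 : z ≠ w := fun e => n2 (by rw [e])
      have m3 : w ≠ y := fun e => n3 (by rw [e])
      rw [Tspec y (belA y hy) z (belA z hz), Tspec z (belA z hz) w (belA w hw),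
        Tspec w (belA w hw) y (belA y hy)]
      intro t1 t2 t3
      rw [← h.R_iff (belA y hy) (belA z hz) (belA w hw)]
      exact hv.cyc m hmm y z w hy hz hw m1 m2 m3 t1 t2 t3)
  refine ⟨x, hxC, ?_, hxlt⟩
  have upm : Function.update φ m x m = x := Function.update_self _ _ _
  have upA : ∀ a ∈ A, Function.update φ m x a = φ a := by
    intro a ha
    exact Function.update_of_ne (by rintro rfl; exact hm ha) _ _
  have neA : ∀ a ∈ A, a ≠ m := by rintro a ha rfl; exact hm ha
  have nex : ∀ a ∈ A, φ a ≠ x := by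
    intro a ha e
    exact hxC (e ▸ hAC a ha)
  have ltam : ∀ a ∈ A, (S.lt a m ↔ S'.lt (φ a) x) := by
    intro a ha
    rw [hxlt _ (hAC a ha)]
    constructor
    · intro h1; exact ⟨a, ha, h1, Or.inl rfl⟩
    · rintro ⟨b, hb, h1, h2 | h2⟩
      · rwa [h.inj ha hb h2]
      · exact hv.trans a (hAi a ha) b (hAi b hb) m hmm ((h.lt a ha b hb).2 h2) h1
  have swapS : ∀ a ∈ A, (S.lt m a ↔ ¬ S.lt a m) := by
    intro a ha
    constructor
    · intro h1 h2; exact hv.lt_asymm hmm (hAi a ha) h1 h2
    · intro h1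
      rcases hv.tri a (hAi a ha) m hmm (neA a ha) with h2 | h2
      · exact (h1 h2).elim
      · exact h2
  have swapS' : ∀ a ∈ A, (S'.lt x (φ a) ↔ ¬ S'.lt (φ a) x) := by
    intro a ha
    constructor
    · intro h1 h2; exact hvS'.lt_asymm (C := Set.univ) trivial trivial h1 h2
    · intro h1
      rcases hvS'.tri (φ a) trivial x trivial (nex a ha) with h2 | h2
      · exact (h1 h2).elim
      · exact h2
  refine ⟨hv.mem_f, hv.mem_g, ?_, ?_, ?_, ?_, ?_⟩
  · rintro a (rfl | ha) b (rfl | hb) hab
    · rfl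
    · rw [upm, upA b hb] at hab; exact (nex b hb hab.symm).elim
    · rw [upm, upA a ha] at hab; exact (nex a ha hab).elim
    · rw [upA a ha, upA b hb] at hab; exact h.inj ha hb hab
  · rintro a (rfl | ha)
    · rw [upm, hxf, hF]
      by_cases h1 : S.f a = a
      · rw [if_pos h1, h1, upm]; rfl
      · rw [if_neg h1, upA _ (memf h1)]; rfl
    · rw [upA a ha, upA _ (h.cf a ha)]; exact h.f a ha
  · rintro a (rfl | ha)
    · rw [upm, hxg, hG]
      by_cases h1 : S.g a = a
      · rw [if_pos h1, h1, upm]; rfl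
      · rw [if_neg h1, upA _ (memg h1)]; rfl
    · rw [upA a ha, upA _ (h.cg a ha)]; exact h.g a ha
  · rintro a (rfl | ha) b (rfl | hb)
    · rw [upm]
      exact iff_of_false (hv.irrefl _ hmm) (hvS'.irrefl x trivial)
    · rw [upm, upA b hb, swapS b hb, swapS' b hb, ltam b hb]
    · rw [upm, upA a ha, ltam a ha]
    · rw [upA a ha, upA b hb]; exact h.lt a ha b hb
  · rintro a (rfl | ha) y z hy hz hne
    · have hyA := belA y hy
      have hzA := belA z hz
      rw [upm, upA y hyA, upA z hzA, hxT (φ y) (φ z) ((low _).2 ⟨y, hy, rfl⟩)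
        ((low _).2 ⟨z, hz, rfl⟩) (fun e => hne (h.inj hyA hzA e)), Tspec y hyA z hzA]
    · have hyA : y ∈ A := h.mem_of_reach ha hy.1
      have hzA : z ∈ A := h.mem_of_reach ha hz.1
      rw [upA a ha, upA y hyA, upA z hzA]
      exact h.T a ha y z hy hz hne

/-- In a rich structure every finite set is contained in a finite closed set. -/
theorem Str.Rich.exists_closed {S : Str X} (hR : S.Rich) (A : Finset X) :
    ∃ B : Finset X, A ⊆ B ∧ (∀ b ∈ B, S.f b ∈ B) ∧ (∀ b ∈ B, S.g b ∈ B) := by
  obtain ⟨r, hr, hf, hg⟩ := hR.rank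
  have hfin : ({x | r x ≤ A.sup r} : Set X).Finite :=
    (Set.finite_Iic (A.sup r)).preimage hr.injOn
  refine ⟨hfin.toFinset, ?_, ?_, ?_⟩
  · intro a ha
    rw [Set.Finite.mem_toFinset]
    exact Finset.le_sup (f := r) ha
  · intro b hb
    rw [Set.Finite.mem_toFinset] at hb ⊢
    exact (hf b).trans hb
  · intro b hb
    rw [Set.Finite.mem_toFinset] at hb ⊢
    exact (hg b).trans hb

open Classical in
/-- Extension of partial isomorphisms to finite closed sets, with the new part placed
independently from a given finite set. -/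
theorem extend_piso {S : Str X} {S' : Str Y} (hS : S.Rich) (hR : S'.Rich) {A : Finset X}
    {φ : X → Y} (h : PIso S S' (A : Set X) φ) (D : Finset X) (hDf : ∀ d ∈ D, S.f d ∈ D)
    (hDg : ∀ d ∈ D, S.g d ∈ D) (C : Finset Y) :
    ∃ ψ : X → Y, PIso S S' ((A ∪ D : Finset X) : Set X) ψ ∧ (∀ a ∈ A, ψ a = φ a) ∧
      (∀ b ∈ D, b ∉ A → ∀ c ∈ C, (∀ a ∈ A, φ a ≠ c) →
        (S'.lt (ψ b) c ∨ ∃ a ∈ A, S'.lt c (φ a) ∧ S'.lt (φ a) (ψ b))) := by
  obtain ⟨r, hr, hf, hg⟩ := hS.rank
  have hvS' := hR.valid
  have key : ∀ N : ℕ, ∃ ψ : X → Y,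
      PIso S S' ((A ∪ D.filter (fun d => r d < N) : Finset X) : Set X) ψ ∧
      (∀ a ∈ A, ψ a = φ a) ∧
      (∀ b ∈ A ∪ D.filter (fun d => r d < N), b ∉ A → ∀ c ∈ C, (∀ a ∈ A, φ a ≠ c) →
        (S'.lt (ψ b) c ∨ ∃ a ∈ A, S'.lt c (φ a) ∧ S'.lt (φ a) (ψ b))) := by
    intro N
    induction N with
    | zero =>
      refine ⟨φ, ?_, fun _ _ => rfl, ?_⟩
      · simpa using h
      · intro b hb hbA
        simp at hb
        exact (hbA hb).elim
    | succ N ih =>
      obtain ⟨ψ, h1, h2, h3⟩ := ih
      by_cases hex : ∃ m ∈ D, r m = N ∧ m ∉ A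
      · obtain ⟨m, hmD, hmN, hmA⟩ := hex
        have hset : A ∪ D.filter (fun d => r d < N + 1) =
            insert m (A ∪ D.filter (fun d => r d < N)) := by
          ext d
          simp only [Finset.mem_union, Finset.mem_filter, Finset.mem_insert]
          constructor
          · rintro (hd | ⟨hd, hd'⟩)
            · exact Or.inr (Or.inl hd)
            · rcases Nat.lt_succ_iff_lt_or_eq.1 hd' with h' | h'
              · exact Or.inr (Or.inr ⟨hd, h'⟩)
              · exact Or.inl (hr (h'.trans hmN.symm))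
          · rintro (rfl | hd | ⟨hd, hd'⟩)
            · exact Or.inr ⟨hmD, by omega⟩
            · exact Or.inl hd
            · exact Or.inr ⟨hd, by omega⟩
        have hmn : m ∉ A ∪ D.filter (fun d => r d < N) := by
          simp only [Finset.mem_union, Finset.mem_filter, not_or, not_and]
          exact ⟨hmA, fun _ => by omega⟩
        have hcl : ∀ (k : X → X), (∀ x, r (k x) ≤ r x) → (∀ d ∈ D, k d ∈ D) →
            k m = m ∨ k m ∈ A ∪ D.filter (fun d => r d < N) := by
          intro k hk hkD
          by_cases e : k m = m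
          · exact Or.inl e
          · right
            have h4 := hk m
            have h5 : r (k m) ≠ r m := fun e' => e (hr e')
            simp only [Finset.mem_union, Finset.mem_filter]
            exact Or.inr ⟨hkD m hmD, by omega⟩
        have hval : S.ValidOn (insert m ((A ∪ D.filter (fun d => r d < N) : Finset X) : Set X)) := by
          have hv := hS.valid
          refine ⟨?_, ?_, fun x _ => hv.irrefl x trivial,
            fun x _ y _ z _ => hv.trans x trivial y trivial z trivial,
            fun x _ y _ => hv.tri x trivial y trivial,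
            fun x _ y _ => hv.acyc x trivial y trivial,
            fun x _ => hv.tour x trivial, fun x _ => hv.cyc x trivial⟩
          · rintro x (rfl | hx)
            · rcases hcl S.f hf hDf with e | e
              · exact Or.inl e
              · exact Or.inr e
            · exact Or.inr (h1.cf x hx)
          · rintro x (rfl | hx)
            · rcases hcl S.g hg hDg with e | e
              · exact Or.inl e
              · exact Or.inr e
            · exact Or.inr (h1.cg x hx)
        obtain ⟨C', hCC', hCf, hCg⟩ :=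
          hR.exists_closed (C ∪ (A ∪ D.filter (fun d => r d < N)).image ψ)
        obtain ⟨x, hxC, hx1, hx2⟩ := one_step hR h1 hmn hval C' hCf hCg
          (fun a ha => hCC' (Finset.mem_union_right _ (Finset.mem_image_of_mem ψ ha)))
        refine ⟨Function.update ψ m x, ?_, ?_, ?_⟩
        · rw [hset, Finset.coe_insert]
          exact hx1
        · intro a ha
          rw [Function.update_of_ne (by rintro rfl; exact hmA ha)]
          exact h2 a ha
        · intro b hb hbA c hc hcA
          rw [hset] at hb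
          rcases Finset.mem_insert.1 hb with rfl | hb'
          · rw [Function.update_self]
            have hcC' : c ∈ C' := hCC' (Finset.mem_union_left _ hc)
            by_cases hlt : S'.lt c x
            · right
              obtain ⟨a, ha, k1, k2⟩ := (hx2 c hcC').1 hlt
              have hax : S'.lt (ψ a) x := by
                rw [hx2 (ψ a) (hCC' (Finset.mem_union_right _ (Finset.mem_image_of_mem ψ ha)))]
                exact ⟨a, ha, k1, Or.inl rfl⟩
              by_cases haA : a ∈ A
              · refine ⟨a, haA, ?_, ?_⟩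
                · rw [h2 a haA] at k2
                  rcases k2 with k2 | k2
                  · exact (hcA a haA k2.symm).elim
                  · exact k2
                · rw [← h2 a haA]; exact hax
              · rcases h3 a ha haA c hc hcA with k3 | ⟨a0, ha0, k3, k4⟩
                · rcases k2 with k2 | k2
                  · rw [k2] at k3; exact (hvS'.irrefl _ trivial k3).elim
                  · exact (hvS'.lt_asymm (C := Set.univ) trivial trivial k2 k3).elim
                · exact ⟨a0, ha0, k3, hvS'.trans _ trivial _ trivial _ trivial k4 hax⟩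
            · left
              have hne : x ≠ c := by rintro rfl; exact hxC hcC'
              rcases hvS'.tri x trivial c trivial hne with k | k
              · exact k
              · exact (hlt k).elim
          · have hbm : b ≠ m := fun e => hmn (e ▸ hb')
            rw [Function.update_of_ne hbm]
            exact h3 b hb' hbA c hc hcA
      · have hset : A ∪ D.filter (fun d => r d < N + 1) = A ∪ D.filter (fun d => r d < N) := by
          ext d
          simp only [Finset.mem_union, Finset.mem_filter]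
          constructor
          · rintro (hd | ⟨hd, hd'⟩)
            · exact Or.inl hd
            · by_cases hdA : d ∈ A
              · exact Or.inl hdA
              · refine Or.inr ⟨hd, ?_⟩
                have : r d ≠ N := fun e => hex ⟨d, hd, e, hdA⟩
                omega
          · rintro (hd | ⟨hd, hd'⟩)
            · exact Or.inl hd
            · exact Or.inr ⟨hd, by omega⟩
        rw [hset]
        exact ⟨ψ, h1, h2, h3⟩
  obtain ⟨ψ, h1, h2, h3⟩ := key (D.sup r + 1)
  have hset : A ∪ D.filter (fun d => r d < D.sup r + 1) = A ∪ D := by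
    ext d
    simp only [Finset.mem_union, Finset.mem_filter]
    constructor
    · rintro (hd | ⟨hd, _⟩)
      · exact Or.inl hd
      · exact Or.inr hd
    · rintro (hd | hd)
      · exact Or.inl hd
      · have := Finset.le_sup (f := r) hd
        exact Or.inr ⟨hd, by omega⟩
  rw [hset] at h1 h3
  exact ⟨ψ, h1, h2, fun b hb => h3 b (Finset.mem_union_right _ hb)⟩

end H92SWIR
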