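import Pool.Agent.H92SWIR.Basic

/-!
# The relation `R` of a valid structure has no `H₄`
-/

namespace H92SWIR

universe u

variable {X : Type u}

/-- `H₄` seen from the vertex `x`: the link of `x` has the cyclic triangle `y → z → w → y`
and the triple `y, z, w` has the wrong orientation. -/
def H4 (R : X → X → X → Prop) (x y z w : X) : Prop :=
  R x y z ∧ R x z w ∧ R x w y ∧ R y w z

theorem H4.rot {R : X → X → X → Prop} (hR : ∀ a b c, R a b c → R b c a) {x y z w : X}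
    (h : H4 R x y z w) : H4 R x z w y :=
  ⟨h.2.1, h.2.2.1, h.1, hR _ _ _ (hR _ _ _ h.2.2.2)⟩

theorem H4.dbl {R : X → X → X → Prop} (hR : ∀ a b c, R a b c → R b c a) {x y z w : X}
    (h : H4 R x y z w) : H4 R y x w z :=
  ⟨hR _ _ _ (hR _ _ _ h.2.2.1), h.2.2.2, hR _ _ _ h.1, h.2.1⟩

/-- Sorting four distinct elements. -/
theorem sort4 {lt : X → X → Prop} {C : Set X}
    (htri : ∀ x ∈ C, ∀ y ∈ C, x ≠ y → lt x y ∨ lt y x)
    (P : X → X → X → X → Prop) (s1 : ∀ a b c d, P a b c d → P b a c d)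
    (s2 : ∀ a b c d, P a b c d → P a c b d) (s3 : ∀ a b c d, P a b c d → P a b d c)
    {x y z w : X} (hx : x ∈ C) (hy : y ∈ C) (hz : z ∈ C) (hw : w ∈ C)
    (hxy : x ≠ y) (hxz : x ≠ z) (hxw : x ≠ w) (hyz : y ≠ z) (hyw : y ≠ w) (hzw : z ≠ w)
    (h : P x y z w) :
    ∃ a ∈ C, ∃ b ∈ C, ∃ c ∈ C, ∃ d ∈ C, lt a b ∧ lt b c ∧ lt c d ∧ P a b c d := by
  -- sort the first two
  have step1 : ∃ a ∈ C, ∃ b ∈ C, a ≠ z ∧ a ≠ w ∧ b ≠ z ∧ b ≠ w ∧ lt a b ∧ P a b z w := by
    rcases htri x hx y hy hxy with h1 | h1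
    · exact ⟨x, hx, y, hy, hxz, hxw, hyz, hyw, h1, h⟩
    · exact ⟨y, hy, x, hx, hyz, hyw, hxz, hxw, h1, s1 _ _ _ _ h⟩
  obtain ⟨a, ha, b, hb, haz, haw, hbz, hbw, hab, h⟩ := step1
  have step2 : ∃ a ∈ C, ∃ b ∈ C, ∃ c ∈ C, a ≠ w ∧ b ≠ w ∧ c ≠ w ∧ lt a b ∧ lt b c ∧
      P a b c w := by
    rcases htri a ha z hz haz with h1 | h1
    · rcases htri b hb z hz hbz with h2 | h2
      · exact ⟨a, ha, b, hb, z, hz, haw, hbw, hzw, hab, h2, h⟩
      · exact ⟨a, ha, z, hz, b, hb, haw, hzw, hbw, h1, h2, s2 _ _ _ _ h⟩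
    · exact ⟨z, hz, a, ha, b, hb, hzw, haw, hbw, h1, hab, s1 _ _ _ _ (s2 _ _ _ _ h)⟩
  obtain ⟨a, ha, b, hb, c, hc, haw, hbw, hcw, hab, hbc, h⟩ := step2
  rcases htri a ha w hw haw with h1 | h1
  · rcases htri b hb w hw hbw with h2 | h2
    · rcases htri c hc w hw hcw with h3 | h3
      · exact ⟨a, ha, b, hb, c, hc, w, hw, hab, hbc, h3, h⟩
      · exact ⟨a, ha, b, hb, w, hw, c, hc, hab, h2, h3, s3 _ _ _ _ h⟩
    · exact ⟨a, ha, w, hw, b, hb, c, hc, h1, h2, hbc, s2 _ _ _ _ (s3 _ _ _ _ h)⟩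
  · exact ⟨w, hw, a, ha, b, hb, c, hc, h1, hab, hbc,
      s1 _ _ _ _ (s2 _ _ _ _ (s3 _ _ _ _ h))⟩

theorem alt_facts {p q r s : Prop} (h1 : p ↔ ¬ q) (h2 : q ↔ ¬ r) (h3 : r ↔ ¬ s) :
    (p ↔ r) ∧ (q ↔ s) ∧ ¬ (p ↔ q) ∧ ¬ (r ↔ s) ∧ ¬ (p ↔ s) ∧ ¬ (q ↔ r) := by
  by_cases hp : p <;> by_cases hq : q <;> by_cases hr : r <;> by_cases hs : s <;>
    simp_all

namespace Str

variable {S : Str X} {C : Set X}

/-- The sorted form of the rule. -/
theorem ValidOn.R_sorted (h : S.ValidOn C) {a b c : X} (ha : a ∈ C) (hb : b ∈ C) (hc : c ∈ C)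
    (hab : S.lt a b) (hbc : S.lt b c) (ht : ¬ S.Top a b c) :
    S.R a b c ↔ (S.Bel b a ∨ S.Bel b c) := by
  have hac := h.trans a ha b hb c hc hab hbc
  have n1 : a ≠ b := by rintro rfl; exact h.irrefl _ ha hab
  have n2 : b ≠ c := by rintro rfl; exact h.irrefl _ hb hbc
  have n3 : c ≠ a := by rintro rfl; exact h.irrefl _ ha hac
  have q1 : ¬ S.lt b a := fun h' => h.lt_asymm ha hb hab h'
  have q2 : ¬ S.lt c b := fun h' => h.lt_asymm hb hc hbc h'
  have q3 : ¬ S.lt c a := fun h' => h.lt_asymm ha hc hac h'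
  rw [R_rule n1 n2 n3 ht]
  unfold Cyc Med
  tauto

/-- No greatest element among four. -/
def NG (S : Str X) (a b c d : X) : Prop :=
  ¬ (S.Bel b a ∧ S.Bel c a ∧ S.Bel d a) ∧ ¬ (S.Bel a b ∧ S.Bel c b ∧ S.Bel d b) ∧
  ¬ (S.Bel a c ∧ S.Bel b c ∧ S.Bel d c) ∧ ¬ (S.Bel a d ∧ S.Bel b d ∧ S.Bel c d)

/-- The main combinatorial point: in a sorted quadruple without greatest element the signs of the
four triples do not alternate. -/
theorem ValidOn.no_alt (h : S.ValidOn C) {a b c d : X} (ha : a ∈ C) (hb : b ∈ C) (hc : c ∈ C)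
    (hd : d ∈ C) (hab : S.lt a b) (hbc : S.lt b c) (hcd : S.lt c d) (hng : S.NG a b c d)
    (h1 : S.R a b c ↔ ¬ S.R a b d) (h2 : S.R a b d ↔ ¬ S.R a c d)
    (h3 : S.R a c d ↔ ¬ S.R b c d) : False := by
  have hac := h.trans a ha b hb c hc hab hbc
  have hbd := h.trans b hb c hc d hd hbc hcd
  -- asymmetry and transitivity of `Bel` on the four elements
  have as : ∀ x ∈ C, ∀ y, S.Bel y x → S.Bel x y → False := fun x hx y => h.bel_asymm hx
  have tr : ∀ x ∈ C, ∀ y z, S.Bel y x → S.Bel z y → S.Bel z x :=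
    fun x hx y z => h.bel_trans hx
  obtain ⟨g1, g2, g3, g4⟩ := hng
  have R1 := fun ht => h.R_sorted ha hb hc hab hbc ht
  have R2 := fun ht => h.R_sorted ha hb hd hab hbd ht
  have R3 := fun ht => h.R_sorted ha hc hd hac hcd ht
  have R4 := fun ht => h.R_sorted hb hc hd hbc hcd ht
  obtain ⟨e1, e2, e3, e4, e5, e6⟩ := alt_facts h1 h2 h3
  clear h1 h2 h3 hab hbc hcd hac hbd
  by_cases hbmax : ¬ S.Bel b a ∧ ¬ S.Bel b c ∧ ¬ S.Bel b d
  · obtain ⟨m1, m2, m3⟩ := hbmax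
    by_cases k1 : S.Bel a b ∧ S.Bel c b
    · have k2 : ¬ S.Bel d b := fun k => g2 ⟨k1.1, k1.2, k⟩
      have r2 : ¬ S.R a b d := by
        rw [R2 (by rintro (t | t | t); exacts [m1 t.1, k2 t.1, m3 t.2])]
        rintro (t | t); exacts [m1 t, m3 t]
      have r4 : S.R b c d := by
        rw [R4 (by rintro (t | t | t); exacts [k2 t.2, m2 t.2, m3 t.1])]
        exact Or.inl k1.2
      exact r2 (e2.2 r4)
    · have r1 : ¬ S.R a b c := by
        rw [R1 (by rintro (t | t | t); exacts [m1 t.1, k1 ⟨t.2, t.1⟩, m2 t.2])]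
        rintro (t | t); exacts [m1 t, m2 t]
      by_cases k2 : S.Bel a b ∧ S.Bel d b
      · have k3 : ¬ S.Bel c b := fun k => k1 ⟨k2.1, k⟩
        have r4 : ¬ S.R b c d := by
          rw [R4 (by rintro (t | t | t); exacts [k3 t.1, m2 t.2, m3 t.1])]
          rintro (t | t)
          · exact k3 t
          · exact k3 (tr b hb _ _ k2.2 t)
        exact e5 (iff_of_false r1 r4)
      · have r2 : ¬ S.R a b d := by
          rw [R2 (by rintro (t | t | t); exacts [m1 t.1, k2 ⟨t.2, t.1⟩, m3 t.2])]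
          rintro (t | t); exacts [m1 t, m3 t]
        exact e3 (iff_of_false r1 r2)
  by_cases hcmax : ¬ S.Bel c a ∧ ¬ S.Bel c b ∧ ¬ S.Bel c d
  · obtain ⟨m1, m2, m3⟩ := hcmax
    by_cases k1 : S.Bel a c ∧ S.Bel d c
    · have k2 : ¬ S.Bel b c := fun k => g3 ⟨k1.1, k, k1.2⟩
      have r1 : ¬ S.R a b c := by
        rw [R1 (by rintro (t | t | t); exacts [m1 t.2, m2 t.1, k2 t.2])]
        rintro (t | t)
        · exact k2 (tr c hc _ _ k1.1 t)
        · exact k2 t
      have r4 : ¬ S.R b c d := by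
        rw [R4 (by rintro (t | t | t); exacts [m2 t.1, k2 t.2, m3 t.2])]
        rintro (t | t); exacts [m2 t, m3 t]
      exact e5 (iff_of_false r1 r4)
    · have r3 : ¬ S.R a c d := by
        rw [R3 (by rintro (t | t | t); exacts [m1 t.1, k1 ⟨t.2, t.1⟩, m3 t.2])]
        rintro (t | t); exacts [m1 t, m3 t]
      by_cases k2 : S.Bel b c ∧ S.Bel d c
      · have k3 : ¬ S.Bel a c := fun k => k1 ⟨k, k2.2⟩
        have r1 : S.R a b c := by
          rw [R1 (by rintro (t | t | t); exacts [m1 t.2, m2 t.1, k3 t.1])]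
          exact Or.inr k2.1
        exact r3 (e1.1 r1)
      · have r4 : ¬ S.R b c d := by
          rw [R4 (by rintro (t | t | t); exacts [m2 t.1, k2 ⟨t.2, t.1⟩, m3 t.2])]
          rintro (t | t); exacts [m2 t, m3 t]
        exact e4 (iff_of_false r3 r4)
  have bm : S.Bel b a ∨ S.Bel b c ∨ S.Bel b d := by
    by_contra hcon
    exact hbmax ⟨fun t => hcon (Or.inl t), fun t => hcon (Or.inr (Or.inl t)),
      fun t => hcon (Or.inr (Or.inr t))⟩
  have cm : S.Bel c a ∨ S.Bel c b ∨ S.Bel c d := by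
    by_contra hcon
    exact hcmax ⟨fun t => hcon (Or.inl t), fun t => hcon (Or.inr (Or.inl t)),
      fun t => hcon (Or.inr (Or.inr t))⟩
  have b1 : S.Bel b a ∨ S.Bel b d := by
    rcases bm with t | t | t
    · exact Or.inl t
    · rcases cm with t' | t' | t'
      · exact Or.inl (tr a ha _ _ t' t)
      · exact (as c hc b t t').elim
      · exact Or.inr (tr d hd _ _ t' t)
    · exact Or.inr t
  have c1 : S.Bel c a ∨ S.Bel c d := by
    rcases cm with t | t | t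
    · exact Or.inl t
    · rcases bm with t' | t' | t'
      · exact Or.inl (tr a ha _ _ t' t)
      · exact (as c hc b t' t).elim
      · exact Or.inr (tr d hd _ _ t' t)
    · exact Or.inr t
  have nda : ¬ S.Bel d a := by
    intro t
    refine g1 ⟨?_, ?_, t⟩
    · rcases b1 with t' | t'
      · exact t'
      · exact tr a ha _ _ t t'
    · rcases c1 with t' | t'
      · exact t'
      · exact tr a ha _ _ t t'
  have nad : ¬ S.Bel a d := by
    intro t
    refine g4 ⟨t, ?_, ?_⟩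
    · rcases b1 with t' | t'
      · exact tr d hd _ _ t t'
      · exact t'
    · rcases c1 with t' | t'
      · exact tr d hd _ _ t t'
      · exact t'
  have r2 : S.R a b d := by
    rw [R2 (by
      rintro (t | t | t)
      · exact nda t.2
      · rcases b1 with t' | t'
        · exact as a ha b t' t.2
        · exact as d hd b t' t.1
      · exact nad t.1)]
    exact b1
  have r3 : S.R a c d := by
    rw [R3 (by
      rintro (t | t | t)
      · exact nda t.2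
      · rcases c1 with t' | t'
        · exact as a ha c t' t.2
        · exact as d hd c t' t.1
      · exact nad t.1)]
    exact c1
  exact e6 (iff_of_true r2 r3)

end Str

end H92SWIR
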