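import Pool.Agent.H92SWIR.Homog

/-!
# The languages, and ultrahomogeneity of the expansion
-/

open FirstOrder FirstOrder.Language FirstOrder.Language.Structure Set

namespace H92SWIR

/-- The relation symbols of the language `{R}`. -/
inductive RelR : ℕ → Type
  | R : RelR 3

/-- The language with one ternary relation symbol `R`. -/
def LR : FirstOrder.Language.{0, 0} := ⟨fun _ => Empty, RelR⟩

/-- The function symbols of the expanded language. -/
inductive FnE : ℕ → Type
  | f : FnE 1
  | g : FnE 1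

/-- The relation symbols of the expanded language. -/
inductive RelE : ℕ → Type
  | lt : RelE 2
  | R : RelE 3

/-- The finite language `{R, <, f, g}`: one ternary and one binary relation symbol, two unary
function symbols. -/
def LE : FirstOrder.Language.{0, 0} := ⟨FnE, RelE⟩

/-- The symbol `f` of `LE`. -/
def fE : LE.Functions 1 := FnE.f
/-- The symbol `g` of `LE`. -/
def gE : LE.Functions 1 := FnE.g
/-- The symbol `<` of `LE`. -/
def ltE : LE.Relations 2 := RelE.lt
/-- The symbol `R` of `LE`. -/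
def rE : LE.Relations 3 := RelE.R
/-- The symbol `R` of `LR`. -/
def rR : LR.Relations 3 := RelR.R

universe u v

variable {X : Type u} {Y : Type v}

/-- The `LE`-structure on `X` is the one given by `S`. -/
structure Compat (S : Str X) [LE.Structure X] : Prop where
  f : ∀ v : Fin 1 → X, funMap fE v = S.f (v 0)
  g : ∀ v : Fin 1 → X, funMap gE v = S.g (v 0)
  lt : ∀ v : Fin 2 → X, RelMap ltE v ↔ S.lt (v 0) (v 1)
  R : ∀ v : Fin 3 → X, RelMap rE v ↔ S.R (v 0) (v 1) (v 2)

/-- The `LE`-structure given by `S`. -/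
@[reducible] def Str.toE (S : Str X) : LE.Structure X where
  funMap := fun {n} (F : FnE n) =>
    match n, F with
    | _, .f => fun v => S.f (v 0)
    | _, .g => fun v => S.g (v 0)
  RelMap := fun {n} (r : RelE n) =>
    match n, r with
    | _, .lt => fun v => S.lt (v 0) (v 1)
    | _, .R => fun v => S.R (v 0) (v 1) (v 2)

theorem Str.toE_compat (S : Str X) : @Compat X S S.toE := by
  letI := S.toE
  exact ⟨fun _ => rfl, fun _ => rfl, fun _ => Iff.rfl, fun _ => Iff.rfl⟩

section

variable {S : Str X} {S' : Str Y} [LE.Structure X] [LE.Structure Y]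

/-- The substructure of `X` with a given closed carrier. -/
def subOf (hc : Compat S) (A : Set X) (hf : ∀ a ∈ A, S.f a ∈ A) (hg : ∀ a ∈ A, S.g a ∈ A) :
    LE.Substructure X where
  carrier := A
  fun_mem := by
    intro n F v hv
    cases F with
    | f =>
      show funMap fE v ∈ A
      rw [hc.f]; exact hf _ (hv 0)
    | g =>
      show funMap gE v ∈ A
      rw [hc.g]; exact hg _ (hv 0)

theorem Compat.mem_f (hc : Compat S) (A : LE.Substructure X) {a : X} (ha : a ∈ A) :
    S.f a ∈ A := by
  have := A.fun_mem fE (![a]) (by intro i; fin_cases i; exact ha)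
  rw [hc.f] at this
  exact this

theorem Compat.mem_g (hc : Compat S) (A : LE.Substructure X) {a : X} (ha : a ∈ A) :
    S.g a ∈ A := by
  have := A.fun_mem gE (![a]) (by intro i; fin_cases i; exact ha)
  rw [hc.g] at this
  exact this

/-- Since the functions are unary, the substructure generated by two substructures is their
union. -/
theorem Compat.mem_sup (hc : Compat S) (A B : LE.Substructure X) {x : X} :
    x ∈ A ⊔ B ↔ x ∈ A ∨ x ∈ B := by
  constructor
  · intro hx
    have hle : A ⊔ B ≤ subOf hc {x | x ∈ A ∨ x ∈ B}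
        (fun a ha => ha.imp (hc.mem_f A) (hc.mem_f B))
        (fun a ha => ha.imp (hc.mem_g A) (hc.mem_g B)) :=
      sup_le (fun y hy => Or.inl hy) (fun y hy => Or.inr hy)
    exact hle hx
  · rintro (h | h)
    · exact (le_sup_left : A ≤ A ⊔ B) h
    · exact (le_sup_right : B ≤ A ⊔ B) h

/-- In a rich structure finitely generated substructures are finite. -/
theorem Compat.finite_of_fg (hc : Compat S) (hS : S.Rich) {A : LE.Substructure X} (h : A.FG) :
    (A : Set X).Finite := by
  obtain ⟨t, ht⟩ := h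
  obtain ⟨B, hB, hf, hg⟩ := hS.exists_closed t
  have hle : A ≤ subOf hc (B : Set X) hf hg := by
    rw [← ht, Substructure.closure_le]
    exact hB
  exact B.finite_toSet.subset hle

theorem Compat.fg_of_finite {A : LE.Substructure X} (h : (A : Set X).Finite) : A.FG :=
  ⟨h.toFinset, by rw [Set.Finite.coe_toFinset]; exact Substructure.closure_eq A⟩

omit [LE.Structure X] [LE.Structure Y] in
/-- A map preserving `f`, `g` on a closed set preserves reachability. -/
theorem reach_of_hom {A : Set X} {φ : X → Y} (cf : ∀ x ∈ A, S.f x ∈ A) (cg : ∀ x ∈ A, S.g x ∈ A)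
    (hf : ∀ x ∈ A, φ (S.f x) = S'.f (φ x)) (hg : ∀ x ∈ A, φ (S.g x) = S'.g (φ x)) {x y : X}
    (hx : x ∈ A) (h : S.Reach x y) : S'.Reach (φ x) (φ y) := by
  induction h with
  | refl => exact .refl _
  | f hr ih => rw [hf _ (hr.mem cf cg hx)]; exact (ih).f
  | g hr ih => rw [hg _ (hr.mem cf cg hx)]; exact (ih).g

/-- An embedding of a substructure gives a partial isomorphism. -/
theorem Compat.toPIso (hc : Compat S) (hc' : Compat S') (hv : S.ValidOn univ)
    (hv' : S'.ValidOn univ) {P : LE.Substructure X} (e : P ↪[LE] Y) {φ : X → Y}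
    (hφ : ∀ x (hx : x ∈ P), φ x = e ⟨x, hx⟩) : PIso S S' (P : Set X) φ := by
  have cf : ∀ x ∈ (P : Set X), S.f x ∈ (P : Set X) := fun x hx => hc.mem_f P hx
  have cg : ∀ x ∈ (P : Set X), S.g x ∈ (P : Set X) := fun x hx => hc.mem_g P hx
  have hf : ∀ x ∈ (P : Set X), φ (S.f x) = S'.f (φ x) := by
    intro x hx
    rw [hφ _ (cf x hx), hφ _ hx]
    have h1 := e.map_fun fE (![(⟨x, hx⟩ : P)])
    rw [hc'.f] at h1
    have h2 : funMap fE (![(⟨x, hx⟩ : P)]) = (⟨S.f x, cf x hx⟩ : P) := by
      apply Subtype.ext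
      have h3 := P.subtype.map_fun fE (![(⟨x, hx⟩ : P)])
      rw [hc.f] at h3
      exact h3
    rw [h2] at h1
    exact h1
  have hg : ∀ x ∈ (P : Set X), φ (S.g x) = S'.g (φ x) := by
    intro x hx
    rw [hφ _ (cg x hx), hφ _ hx]
    have h1 := e.map_fun gE (![(⟨x, hx⟩ : P)])
    rw [hc'.g] at h1
    have h2 : funMap gE (![(⟨x, hx⟩ : P)]) = (⟨S.g x, cg x hx⟩ : P) := by
      apply Subtype.ext
      have h3 := P.subtype.map_fun gE (![(⟨x, hx⟩ : P)])
      rw [hc.g] at h3
      exact h3
    rw [h2] at h1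
    exact h1
  have inj : InjOn φ (P : Set X) := by
    intro x hx y hy h
    rw [hφ _ hx, hφ _ hy] at h
    exact congrArg Subtype.val (e.injective h)
  have hlt : ∀ x ∈ (P : Set X), ∀ y ∈ (P : Set X), S.lt x y ↔ S'.lt (φ x) (φ y) := by
    intro x hx y hy
    have h1 := e.map_rel ltE (![(⟨x, hx⟩ : P), ⟨y, hy⟩])
    have h2 := P.subtype.map_rel ltE (![(⟨x, hx⟩ : P), ⟨y, hy⟩])
    rw [hc'.lt] at h1
    rw [hc.lt] at h2
    rw [hφ _ hx, hφ _ hy]
    exact h2.trans h1.symm
  have hRR : ∀ x ∈ (P : Set X), ∀ y ∈ (P : Set X), ∀ z ∈ (P : Set X),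
      (S.R x y z ↔ S'.R (φ x) (φ y) (φ z)) := by
    intro x hx y hy z hz
    have h1 := e.map_rel rE (![(⟨x, hx⟩ : P), ⟨y, hy⟩, ⟨z, hz⟩])
    have h2 := P.subtype.map_rel rE (![(⟨x, hx⟩ : P), ⟨y, hy⟩, ⟨z, hz⟩])
    rw [hc'.R] at h1
    rw [hc.R] at h2
    rw [hφ _ hx, hφ _ hy, hφ _ hz]
    exact h2.trans h1.symm
  refine ⟨cf, cg, inj, hf, hg, hlt, ?_⟩
  intro x hx y z hy hz hne
  have hyP : y ∈ (P : Set X) := hy.1.mem cf cg hx
  have hzP : z ∈ (P : Set X) := hz.1.mem cf cg hx
  rw [← hv.R_top trivial hy hz hne, hRR x hx y hyP z hzP]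
  apply hv'.R_top trivial
  · exact ⟨reach_of_hom cf cg hf hg hx hy.1, fun e => hy.2 (inj hyP hx e)⟩
  · exact ⟨reach_of_hom cf cg hf hg hx hz.1, fun e => hz.2 (inj hzP hx e)⟩
  · exact fun e => hne (inj hyP hzP e)

/-- A partial isomorphism restricts to an embedding of a substructure. -/
def Compat.ofPIso (hc : Compat S) (hc' : Compat S') {A : Set X} {ψ : X → Y}
    (h : PIso S S' A ψ) (P : LE.Substructure X) (hP : (P : Set X) ⊆ A) : P ↪[LE] Y where
  toFun := fun x => ψ x
  inj' := by
    intro x y hxy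
    exact Subtype.ext (h.inj (hP x.2) (hP y.2) hxy)
  map_fun' := by
    intro n F v
    have h0 := P.subtype.map_fun F v
    have h1 : ((funMap F v : P) : X) = funMap F (fun i => (v i : X)) := h0
    show ψ ((funMap F v : P) : X) = funMap F ((fun x : P => ψ x) ∘ v)
    rw [h1]
    cases F with
    | f =>
      show ψ (funMap fE (fun i => (v i : X))) = funMap fE ((fun x : P => ψ x) ∘ v)
      rw [hc.f, hc'.f]
      exact h.f _ (hP (v 0).2)
    | g =>
      show ψ (funMap gE (fun i => (v i : X))) = funMap gE ((fun x : P => ψ x) ∘ v)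
      rw [hc.g, hc'.g]
      exact h.g _ (hP (v 0).2)
  map_rel' := by
    intro n r v
    have h0 := P.subtype.map_rel r v
    rw [← h0]
    cases r with
    | lt =>
      show RelMap ltE ((fun x : P => ψ x) ∘ v) ↔ RelMap ltE (P.subtype ∘ v)
      rw [hc.lt, hc'.lt]
      exact (h.lt _ (hP (v 0).2) _ (hP (v 1).2)).symm
    | R =>
      show RelMap rE ((fun x : P => ψ x) ∘ v) ↔ RelMap rE (P.subtype ∘ v)
      rw [hc.R, hc'.R]
      exact (h.R_iff (hP (v 0).2) (hP (v 1).2) (hP (v 2).2)).symm

@[simp] theorem Compat.ofPIso_apply (hc : Compat S) (hc' : Compat S') {A : Set X} {ψ : X → Y}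
    (h : PIso S S' A ψ) (P : LE.Substructure X) (hP : (P : Set X) ⊆ A) (x : P) :
    hc.ofPIso hc' h P hP x = ψ x := rfl

end

/-- A rich structure is countable. -/
theorem Str.Rich.countable {S : Str X} (hS : S.Rich) : Countable X := by
  obtain ⟨r, hr, -⟩ := hS.rank
  exact hr.countable

/-- A rich structure is ultrahomogeneous in the language `LE`. -/
theorem Compat.ultrahomogeneous {S : Str X} [LE.Structure X] (hc : Compat S) (hS : S.Rich) :
    LE.IsUltrahomogeneous X := by
  classical
  have := hS.countable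
  rw [isUltrahomogeneous_iff_IsExtensionPair (cg_of_countable),
    isExtensionPair_iff_exists_embedding_closure_singleton_sup]
  intro P hP e m
  obtain ⟨A, hA⟩ : ∃ A : Finset X, (A : Set X) = (P : Set X) :=
    ⟨(hc.finite_of_fg hS hP).toFinset, Set.Finite.coe_toFinset _⟩
  have h1 : PIso S S (P : Set X) (fun x => if hx : x ∈ P then e ⟨x, hx⟩ else x) :=
    hc.toPIso hc hS.valid hS.valid e (fun x hx => dif_pos hx)
  rw [← hA] at h1
  obtain ⟨D, hD, hDf, hDg⟩ := hS.exists_closed {m}
  obtain ⟨ψ, h2, h3, -⟩ := extend_piso hS hS h1 D hDf hDg ∅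
  have hmD : m ∈ D := hD (Finset.mem_singleton_self m)
  have hle : (Substructure.closure LE {m} ⊔ P : LE.Substructure X) ≤
      subOf hc ((A ∪ D : Finset X) : Set X) h2.cf h2.cg := by
    refine sup_le ?_ ?_
    · rw [Substructure.closure_le]
      rintro _ rfl
      exact Finset.mem_union_right _ hmD
    · intro x hx
      have : x ∈ (A : Set X) := by rw [hA]; exact hx
      exact Finset.mem_union_left _ this
  refine ⟨hc.ofPIso hc h2 _ hle, ?_⟩
  ext x
  have hx : (x : X) ∈ A := by
    have : (x : X) ∈ (A : Set X) := by rw [hA]; exact x.2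
    exact this
  have e1 : (hc.ofPIso hc h2 _ hle).comp (Substructure.inclusion le_sup_right) x = ψ x := rfl
  rw [e1, h3 _ hx]
  simp

/-- Partial isomorphisms of a rich structure between finite closed sets extend to
automorphisms. -/
theorem Compat.exists_aut {S : Str X} [LE.Structure X] (hc : Compat S) (hS : S.Rich)
    {A : Set X} (hA : A.Finite) {φ : X → X} (h : PIso S S A φ) :
    ∃ σ : X ≃[LE] X, ∀ a ∈ A, σ a = φ a := by
  have hsub : (subOf hc A h.cf h.cg : LE.Substructure X).FG := Compat.fg_of_finite hA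
  obtain ⟨σ, hσ⟩ := hc.ultrahomogeneous hS _ hsub (hc.ofPIso hc h _ (fun _ hx => hx))
  refine ⟨σ, fun a ha => ?_⟩
  have := congrArg (fun e => e ⟨a, ha⟩) hσ
  simp only [Compat.ofPIso_apply] at this
  exact this.symm

end H92SWIR
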