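import Pool.Agent.H92SWIR.Types

/-!
# Main theorem
-/

open FirstOrder FirstOrder.Language FirstOrder.Language.Structure Set

namespace H92SWIR

universe u v

variable {X : Type u} {Y : Type v}

/-- Pulling back along a bijection. -/
def Str.comap (S : Str Y) (e : X ≃ Y) : Str X where
  lt := fun a b => S.lt (e a) (e b)
  f := fun a => e.symm (S.f (e a))
  g := fun a => e.symm (S.g (e a))
  T := fun a b c => S.T (e a) (e b) (e c)

theorem comap_piso (S : Str Y) (e : X ≃ Y) : PIso (S.comap e) S univ e := by
  refine ⟨fun _ _ => trivial, fun _ _ => trivial, e.injective.injOn, ?_, ?_, ?_, ?_⟩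
  · intro x _; simp [Str.comap]
  · intro x _; simp [Str.comap]
  · intro x _ y _; rfl
  · intro x _ y z _ _ _; rfl

theorem Str.Rich.comap {S : Str Y} (hS : S.Rich) (e : X ≃ Y) : (S.comap e).Rich := by
  classical
  have hP := comap_piso S e
  have hreach : ∀ x y, (S.comap e).Reach x y ↔ S.Reach (e x) (e y) :=
    fun x y => hP.reach_iff trivial trivial
  refine ⟨?_, ?_, ?_⟩
  · apply hP.validOn
    rw [image_univ, e.range_eq_univ]
    exact hS.valid
  · obtain ⟨r, h1, h2, h3⟩ := hS.rank
    refine ⟨fun x => r (e x), h1.comp e.injective, fun x => ?_, fun x => ?_⟩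
    · simpa [Str.comap] using h2 (e x)
    · simpa [Str.comap] using h3 (e x)
  · intro B F G cut T hf hg hF hG hcut htour hcyc
    have low : ∀ y, S.LowO (F.map e) (G.map e) y ↔ (S.comap e).LowO F G (e.symm y) := by
      intro y
      have key : ∀ F : Option X, ((∃ a, F.map e = some a ∧ S.Reach a y) ↔
          (∃ a, F = some a ∧ (S.comap e).Reach a (e.symm y))) := by
        intro F
        cases F with
        | none => simp
        | some a => simp [hreach]
      unfold Str.LowO
      rw [key F, key G]
    have hR : ∀ x y z, (S.comap e).R x y z ↔ S.R (e x) (e y) (e z) :=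
      fun x y z => hP.R_iff trivial trivial trivial
    have memB : ∀ y, y ∈ B.map e.toEmbedding ↔ e.symm y ∈ B := by
      intro y; simp [Finset.mem_map_equiv]
    obtain ⟨x, h1, h2, h3, h4, h5⟩ := hS.ext (B.map e.toEmbedding) (F.map e) (G.map e)
      (fun y => cut (e.symm y)) (fun y z => T (e.symm y) (e.symm z))
      (by
        intro b hb
        rw [memB] at hb ⊢
        have := hf _ hb
        simpa [Str.comap] using this)
      (by
        intro b hb
        rw [memB] at hb ⊢
        have := hg _ hb
        simpa [Str.comap] using this)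
      (by
        intro a ha
        rw [Option.map_eq_some_iff] at ha
        obtain ⟨a', h1, rfl⟩ := ha
        rw [memB, e.symm_apply_apply]
        exact hF a' h1)
      (by
        intro a ha
        rw [Option.map_eq_some_iff] at ha
        obtain ⟨a', h1, rfl⟩ := ha
        rw [memB, e.symm_apply_apply]
        exact hG a' h1)
      (by
        intro a ha b hb hab
        rw [memB] at ha hb
        apply hcut _ ha _ hb
        simpa [Str.comap] using hab)
      (by
        intro y z hy hz hne
        rw [low] at hy hz
        exact htour _ _ hy hz (fun h => hne (e.symm.injective h)))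
      (by
        intro y z w hy hz hw n1 n2 n3 t1 t2 t3
        rw [low] at hy hz hw
        have := hcyc _ _ _ hy hz hw (fun h => n1 (e.symm.injective h))
          (fun h => n2 (e.symm.injective h)) (fun h => n3 (e.symm.injective h)) t1 t2 t3
        rw [hR] at this
        simpa using this)
    refine ⟨e.symm x, ?_, ?_, ?_, ?_, ?_⟩
    · rw [← memB]; exact h1
    · show e.symm (S.f (e (e.symm x))) = _
      rw [e.apply_symm_apply, h2]
      cases F <;> simp
    · show e.symm (S.g (e (e.symm x))) = _
      rw [e.apply_symm_apply, h3]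
      cases G <;> simp
    · intro b hb
      have := h4 (e b) (by rw [memB, e.symm_apply_apply]; exact hb)
      rw [e.symm_apply_apply] at this
      rw [← this]
      show S.lt (e b) (e (e.symm x)) ↔ _
      rw [e.apply_symm_apply]
    · intro y z hy hz hne
      have := h5 (e y) (e z) (by rw [low, e.symm_apply_apply]; exact hy)
        (by rw [low, e.symm_apply_apply]; exact hz) (fun h => hne (e.injective h))
      rw [e.symm_apply_apply, e.symm_apply_apply] at this
      rw [← this]
      show S.T (e (e.symm x)) (e y) (e z) ↔ _
      rw [e.apply_symm_apply]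

/-- The generic `H₄`-free 3-hypertournament exists. -/
theorem exists_generic : ∃ (W : Type) (_ : Countable W) (_ : LR.Structure W),
    IsFraisseLimit classW W :=
  ⟨ℕ, inferInstance, gen.toR, @CompatR.isFraisseLimit ℕ gen gen.toR _ gen.toR_compat gen_rich⟩

/-- Every copy of the generic `H₄`-free 3-hypertournament carries a rich structure. -/
theorem exists_rich (W : Type) [Countable W] [LR.Structure W] (h : IsFraisseLimit classW W) :
    ∃ S : Str W, S.Rich ∧ CompatR S := by
  let _ : LR.Structure ℕ := gen.toR
  have hN : IsFraisseLimit classW ℕ := CompatR.isFraisseLimit gen.toR_compat gen_rich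
  obtain ⟨e⟩ := h.nonempty_equiv hN
  refine ⟨gen.comap e.toEquiv, gen_rich.comap _, ?_⟩
  intro x y z
  have h1 := (comap_piso gen e.toEquiv).R_iff (x := x) (y := y) (z := z) trivial trivial trivial
  rw [h1, ← gen.toR_compat]
  exact (rel_embedding e.toEmbedding x y z).symm

/-- The inclusion of languages. -/
def inclE : LR →ᴸ LE where
  onFunction := fun {_} (F : Empty) => F.elim
  onRelation := fun {n} (r : RelR n) =>
    match n, r with
    | _, .R => RelE.R

theorem inclE_injective : inclE.Injective where
  onFunction := fun {_} F => F.elim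
  onRelation := fun {_} r r' _ => by
    cases r; cases r'; rfl

instance : Finite (Σ n, LE.Functions n) :=
  Finite.of_surjective (fun b : Bool => if b then (⟨1, FnE.f⟩ : Σ n, LE.Functions n) else
    ⟨1, FnE.g⟩) (by
      rintro ⟨n, F⟩
      cases F with
      | f => exact ⟨true, rfl⟩
      | g => exact ⟨false, rfl⟩)

instance : Finite (Σ n, LE.Relations n) :=
  Finite.of_surjective (fun b : Bool => if b then (⟨2, RelE.lt⟩ : Σ n, LE.Relations n) else
    ⟨3, RelE.R⟩) (by
      rintro ⟨n, F⟩
      cases F with
      | lt => exact ⟨true, rfl⟩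
      | R => exact ⟨false, rfl⟩)

theorem main (W : Type) [Countable W] [LR.Structure W] (h : IsFraisseLimit classW W) :
    ∃ _ : LE.Structure W, inclE.IsExpansionOn W ∧ LE.IsUltrahomogeneous W ∧
      (∃ ind : LE.Substructure W → LE.Substructure W → LE.Substructure W → Prop,
        IsSWIR LE W ind) ∧
      (∀ A : LE.Substructure W, A.FG → Finite A ∧
        ∀ m ∉ A, {x | ∃ σ : W ≃[LE] W, (∀ a ∈ A, σ a = a) ∧ σ m = x}.Infinite) := by
  obtain ⟨S, hS, hr⟩ := exists_rich W h
  let inst : LE.Structure W := S.toE
  have hc : Compat S := S.toE_compat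
  refine ⟨inst, ?_, hc.ultrahomogeneous hS, ⟨S.ind, hc.isSWIR hS⟩, fun A hA => ⟨?_, ?_⟩⟩
  · refine ⟨fun {_} F => F.elim, ?_⟩
    intro n r v
    cases r with
    | R =>
      apply propext
      show RelMap rE v ↔ RelMap rR v
      rw [hc.R, relMap_rR, hr]
  · exact (hc.finite_of_fg hS hA).to_subtype
  · exact hc.orbit_infinite hS A hA

end H92SWIR
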