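import Pool.Agent.H92SWIR.Key

/-!
# A valid structure is an `H₄`-free 3-hypertournament
-/

namespace H92SWIR

universe u

variable {X : Type u}

namespace Str

variable {S : Str X} {C : Set X}

theorem ValidOn.noH4_top (h : S.ValidOn C) {x y z w : X} (hx : x ∈ C)
    (hy : S.Bel y x) (hz : S.Bel z x) (hw : S.Bel w x) : ¬ H4 S.R x y z w := by
  rintro ⟨h1, h2, h3, h4⟩
  have n1 : y ≠ z := h1.1.2.1
  have n2 : z ≠ w := h2.1.2.1
  have n3 : w ≠ y := h3.1.2.1
  rw [h.R_top hx hy hz n1] at h1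
  rw [h.R_top hx hz hw n2] at h2
  rw [h.R_top hx hw hy n3] at h3
  have h5 := h.cyc x hx y z w hy hz hw n1 n2 n3 h1 h2 h3
  exact (h.R_swap (h.bel_mem hy hx) (h.bel_mem hz hx) (h.bel_mem hw hx) n1 n2 n3).1 h5 h4

theorem ValidOn.noH4 (h : S.ValidOn C) {x y z w : X} (hx : x ∈ C) (hy : y ∈ C) (hz : z ∈ C)
    (hw : w ∈ C) : ¬ H4 S.R x y z w := by
  intro hH
  have rot : ∀ a b c, S.R a b c → S.R b c a := fun a b c => R_rot
  have n1 : x ≠ y := hH.1.1.1
  have n2 : y ≠ z := hH.1.1.2.1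
  have n3 : z ≠ x := hH.1.1.2.2
  have n4 : z ≠ w := hH.2.1.1.2.1
  have n5 : w ≠ x := hH.2.1.1.2.2
  have n6 : w ≠ y := hH.2.2.1.1.2.1
  by_cases hng : S.NG x y z w
  · obtain ⟨a, ha, b, hb, c, hc, d, hd, hab, hbc, hcd, hP, hng'⟩ := sort4 (lt := S.lt) h.tri
      (fun a b c d => (H4 S.R a b c d ∨ H4 S.R b a c d) ∧ S.NG a b c d)
      (by
        rintro a b c d ⟨h1, h2⟩
        refine ⟨h1.symm, ?_⟩
        unfold NG at h2 ⊢
        tauto)
      (by
        rintro a b c d ⟨h1, h2⟩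
        refine ⟨?_, ?_⟩
        · rcases h1 with h1 | h1
          · right
            -- H4 a b c d → H4 c a b d
            exact ((h1.rot rot).dbl rot)
          · left
            -- H4 b a c d → H4 a c b d
            exact (((h1.rot rot).rot rot).dbl rot).rot rot |>.rot rot |>.dbl rot |>.rot rot
        · unfold NG at h2 ⊢
          tauto)
      (by
        rintro a b c d ⟨h1, h2⟩
        refine ⟨?_, ?_⟩
        · rcases h1 with h1 | h1
          · exact Or.inr (h1.dbl rot)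
          · exact Or.inl (h1.dbl rot)
        · unfold NG at h2 ⊢
          tauto) hx hy hz hw n1 n3.symm n5.symm n2 n6.symm n4 ⟨Or.inl hH, hng⟩
    have hac := h.trans a ha b hb c hc hab hbc
    have had := h.trans a ha c hc d hd hac hcd
    have hbd := h.trans b hb c hc d hd hbc hcd
    have m1 : a ≠ b := by rintro rfl; exact h.irrefl _ ha hab
    have m2 : b ≠ c := by rintro rfl; exact h.irrefl _ hb hbc
    have m3 : c ≠ d := by rintro rfl; exact h.irrefl _ hc hcd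
    have m4 : a ≠ c := by rintro rfl; exact h.irrefl _ ha hac
    have m5 : a ≠ d := by rintro rfl; exact h.irrefl _ ha had
    have m6 : b ≠ d := by rintro rfl; exact h.irrefl _ hb hbd
    have sABC := h.R_swap ha hb hc m1 m2 m4.symm
    have sABD := h.R_swap ha hb hd m1 m6 m5.symm
    have sACD := h.R_swap ha hc hd m4 m3 m5.symm
    have sBCD := h.R_swap hb hc hd m2 m3 m6.symm
    have key : (S.R a b c ∧ ¬ S.R a b d ∧ S.R a c d ∧ ¬ S.R b c d) ∨
        (¬ S.R a b c ∧ S.R a b d ∧ ¬ S.R a c d ∧ S.R b c d) := by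
      rcases hP with hP | hP
      · left
        refine ⟨hP.1, ?_, hP.2.1, ?_⟩
        · rw [sABD]; exact not_not.2 hP.2.2.1
        · rw [sBCD]; exact not_not.2 hP.2.2.2
      · right
        refine ⟨?_, ?_, ?_, hP.2.1⟩
        · rw [sABC]; exact not_not.2 (R_rot hP.1)
        · exact R_rot (R_rot hP.2.2.1)
        · rw [sACD]; exact not_not.2 hP.2.2.2
    apply h.no_alt ha hb hc hd hab hbc hcd hng'
    · rcases key with ⟨k1, k2, k3, k4⟩ | ⟨k1, k2, k3, k4⟩
      · exact iff_of_true k1 k2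
      · exact iff_of_false k1 (not_not.2 k2)
    · rcases key with ⟨k1, k2, k3, k4⟩ | ⟨k1, k2, k3, k4⟩
      · exact iff_of_false k2 (not_not.2 k3)
      · exact iff_of_true k2 k3
    · rcases key with ⟨k1, k2, k3, k4⟩ | ⟨k1, k2, k3, k4⟩
      · exact iff_of_true k3 k4
      · exact iff_of_false k3 (not_not.2 k4)
  · have hcases : (S.Bel y x ∧ S.Bel z x ∧ S.Bel w x) ∨ (S.Bel x y ∧ S.Bel z y ∧ S.Bel w y) ∨
        (S.Bel x z ∧ S.Bel y z ∧ S.Bel w z) ∨ (S.Bel x w ∧ S.Bel y w ∧ S.Bel z w) := by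
      unfold NG at hng
      tauto
    rcases hcases with ⟨a1, a2, a3⟩ | ⟨a1, a2, a3⟩ | ⟨a1, a2, a3⟩ | ⟨a1, a2, a3⟩
    · exact h.noH4_top hx a1 a2 a3 hH
    · exact h.noH4_top hy a1 a3 a2 (hH.dbl rot)
    · exact h.noH4_top hz a1 a2 a3 ((hH.rot rot).dbl rot)
    · exact h.noH4_top hw a1 a3 a2 (((hH.rot rot).rot rot).dbl rot)

end Str

end H92SWIR
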