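import Pool.Agent.H92SWIR.NoH4

/-!
# Partial isomorphisms between closed sets
-/

namespace H92SWIR

universe u v w

variable {X : Type u} {Y : Type v} {Z : Type w}

/-- `φ` is an isomorphism from the closed subset `A` of `(X, S)` onto a (closed) subset of
`(Y, S')`. -/
structure PIso (S : Str X) (S' : Str Y) (A : Set X) (φ : X → Y) : Prop where
  cf : ∀ x ∈ A, S.f x ∈ A
  cg : ∀ x ∈ A, S.g x ∈ A
  inj : Set.InjOn φ A
  f : ∀ x ∈ A, φ (S.f x) = S'.f (φ x)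
  g : ∀ x ∈ A, φ (S.g x) = S'.g (φ x)
  lt : ∀ x ∈ A, ∀ y ∈ A, S.lt x y ↔ S'.lt (φ x) (φ y)
  T : ∀ x ∈ A, ∀ y z, S.Bel y x → S.Bel z x → y ≠ z →
    (S.T x y z ↔ S'.T (φ x) (φ y) (φ z))

namespace PIso

variable {S : Str X} {S' : Str Y} {A : Set X} {φ : X → Y}

theorem mem_of_reach (h : PIso S S' A φ) {x y : X} (hx : x ∈ A) (hr : S.Reach x y) : y ∈ A :=
  hr.mem h.cf h.cg hx

theorem reach (h : PIso S S' A φ) {x y : X} (hx : x ∈ A) (hr : S.Reach x y) :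
    S'.Reach (φ x) (φ y) := by
  induction hr with
  | refl => exact .refl _
  | f hr ih => rw [h.f _ (h.mem_of_reach hx hr)]; exact (ih).f
  | g hr ih => rw [h.g _ (h.mem_of_reach hx hr)]; exact (ih).g

theorem reach_inv' (h : PIso S S' A φ) {x' y' : Y} (hr : S'.Reach x' y') :
    ∀ x ∈ A, φ x = x' → ∃ y, S.Reach x y ∧ φ y = y' := by
  induction hr with
  | refl => intro x _ hx'; exact ⟨x, .refl _, hx'⟩
  | f hr ih =>
    intro x hx hx'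
    obtain ⟨y, h1, h2⟩ := ih x hx hx'
    exact ⟨S.f y, h1.f, by rw [h.f _ (h.mem_of_reach hx h1), h2]⟩
  | g hr ih =>
    intro x hx hx'
    obtain ⟨y, h1, h2⟩ := ih x hx hx'
    exact ⟨S.g y, h1.g, by rw [h.g _ (h.mem_of_reach hx h1), h2]⟩

theorem reach_inv (h : PIso S S' A φ) {x : X} {y' : Y} (hx : x ∈ A) (hr : S'.Reach (φ x) y') :
    ∃ y, S.Reach x y ∧ φ y = y' := h.reach_inv' hr x hx rfl

theorem reach_iff (h : PIso S S' A φ) {x y : X} (hx : x ∈ A) (hy : y ∈ A) :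
    S.Reach x y ↔ S'.Reach (φ x) (φ y) := by
  refine ⟨h.reach hx, fun hr => ?_⟩
  obtain ⟨y₀, h1, h2⟩ := h.reach_inv hx hr
  have := h.inj (h.mem_of_reach hx h1) hy h2
  rwa [← this]

theorem ne_iff (h : PIso S S' A φ) {x y : X} (hx : x ∈ A) (hy : y ∈ A) :
    x ≠ y ↔ φ x ≠ φ y :=
  not_congr ⟨fun e => by rw [e], fun e => h.inj hx hy e⟩

theorem bel_iff (h : PIso S S' A φ) {x y : X} (hx : x ∈ A) (hy : y ∈ A) :
    S.Bel y x ↔ S'.Bel (φ y) (φ x) := by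
  unfold Str.Bel
  rw [h.reach_iff hx hy, h.ne_iff hy hx]

theorem bel_inv (h : PIso S S' A φ) {x : X} {y' : Y} (hx : x ∈ A) (hr : S'.Bel y' (φ x)) :
    ∃ y, S.Bel y x ∧ φ y = y' := by
  obtain ⟨y, h1, h2⟩ := h.reach_inv hx hr.1
  refine ⟨y, ⟨h1, ?_⟩, h2⟩
  rintro rfl
  exact hr.2 h2.symm

theorem top_iff (h : PIso S S' A φ) {x y z : X} (hx : x ∈ A) (hy : y ∈ A) (hz : z ∈ A) :
    S.Top x y z ↔ S'.Top (φ x) (φ y) (φ z) := by
  unfold Str.Top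
  rw [h.bel_iff hx hy, h.bel_iff hx hz, h.bel_iff hy hz, h.bel_iff hy hx, h.bel_iff hz hx,
    h.bel_iff hz hy]

theorem cyc_iff (h : PIso S S' A φ) {x y z : X} (hx : x ∈ A) (hy : y ∈ A) (hz : z ∈ A) :
    S.Cyc x y z ↔ S'.Cyc (φ x) (φ y) (φ z) := by
  unfold Str.Cyc
  rw [h.lt x hx y hy, h.lt y hy z hz, h.lt z hz x hx]

theorem med_iff (h : PIso S S' A φ) {x y z : X} (hx : x ∈ A) (hy : y ∈ A) (hz : z ∈ A) :
    S.Med x y z ↔ S'.Med (φ x) (φ y) (φ z) := by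
  unfold Str.Med
  rw [h.lt x hx y hy, h.lt y hy z hz, h.lt z hz x hx, h.lt y hy x hx, h.lt z hz y hy,
    h.lt x hx z hz, h.bel_iff hx hy, h.bel_iff hx hz, h.bel_iff hy hz, h.bel_iff hy hx,
    h.bel_iff hz hx, h.bel_iff hz hy]

theorem R_iff (h : PIso S S' A φ) {x y z : X} (hx : x ∈ A) (hy : y ∈ A) (hz : z ∈ A) :
    S.R x y z ↔ S'.R (φ x) (φ y) (φ z) := by
  by_cases hne : x ≠ y ∧ y ≠ z ∧ z ≠ x
  · have hne' : φ x ≠ φ y ∧ φ y ≠ φ z ∧ φ z ≠ φ x :=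
      ⟨(h.ne_iff hx hy).1 hne.1, (h.ne_iff hy hz).1 hne.2.1, (h.ne_iff hz hx).1 hne.2.2⟩
    obtain ⟨n1, n2, n3⟩ := hne
    have t1 : (S.Bel y x ∧ S.Bel z x ∧ S.T x y z) ↔
        (S'.Bel (φ y) (φ x) ∧ S'.Bel (φ z) (φ x) ∧ S'.T (φ x) (φ y) (φ z)) := by
      rw [← h.bel_iff hx hy, ← h.bel_iff hx hz]
      constructor
      · rintro ⟨a, b, c⟩; exact ⟨a, b, (h.T x hx y z a b n2).1 c⟩
      · rintro ⟨a, b, c⟩; exact ⟨a, b, (h.T x hx y z a b n2).2 c⟩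
    have t2 : (S.Bel z y ∧ S.Bel x y ∧ S.T y z x) ↔
        (S'.Bel (φ z) (φ y) ∧ S'.Bel (φ x) (φ y) ∧ S'.T (φ y) (φ z) (φ x)) := by
      rw [← h.bel_iff hy hz, ← h.bel_iff hy hx]
      constructor
      · rintro ⟨a, b, c⟩; exact ⟨a, b, (h.T y hy z x a b n3).1 c⟩
      · rintro ⟨a, b, c⟩; exact ⟨a, b, (h.T y hy z x a b n3).2 c⟩
    have t3 : (S.Bel x z ∧ S.Bel y z ∧ S.T z x y) ↔
        (S'.Bel (φ x) (φ z) ∧ S'.Bel (φ y) (φ z) ∧ S'.T (φ z) (φ x) (φ y)) := by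
      rw [← h.bel_iff hz hx, ← h.bel_iff hz hy]
      constructor
      · rintro ⟨a, b, c⟩; exact ⟨a, b, (h.T z hz x y a b n1).1 c⟩
      · rintro ⟨a, b, c⟩; exact ⟨a, b, (h.T z hz x y a b n1).2 c⟩
    unfold Str.R
    rw [t1, t2, t3, h.top_iff hx hy hz, h.cyc_iff hx hy hz, h.med_iff hx hy hz]
    exact ⟨fun k => ⟨hne', k.2⟩, fun k => ⟨⟨n1, n2, n3⟩, k.2⟩⟩
  · constructor
    · intro k; exact (hne k.1).elim
    · intro k
      exact (hne ⟨(h.ne_iff hx hy).2 k.1.1, (h.ne_iff hy hz).2 k.1.2.1,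
        (h.ne_iff hz hx).2 k.1.2.2⟩).elim

/-- Validity transfers from the image to the source. -/
theorem validOn (h : PIso S S' A φ) (hv : S'.ValidOn (φ '' A)) : S.ValidOn A := by
  have im : ∀ {x}, x ∈ A → φ x ∈ φ '' A := fun hx => Set.mem_image_of_mem _ hx
  refine ⟨h.cf, h.cg, ?_, ?_, ?_, ?_, ?_, ?_⟩
  · intro x hx; rw [h.lt x hx x hx]; exact hv.irrefl _ (im hx)
  · intro x hx y hy z hz
    rw [h.lt x hx y hy, h.lt y hy z hz, h.lt x hx z hz]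
    exact hv.trans _ (im hx) _ (im hy) _ (im hz)
  · intro x hx y hy hne
    rw [h.lt x hx y hy, h.lt y hy x hx]
    exact hv.tri _ (im hx) _ (im hy) ((h.ne_iff hx hy).1 hne)
  · intro x hx y hy h1 h2
    exact h.inj hx hy (hv.acyc _ (im hx) _ (im hy) (h.reach hx h1) (h.reach hy h2))
  · intro x hx y z h1 h2 hne
    have hy := h.mem_of_reach hx h1.1
    have hz := h.mem_of_reach hx h2.1
    rw [h.T x hx y z h1 h2 hne, h.T x hx z y h2 h1 hne.symm]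
    exact hv.tour _ (im hx) _ _ ((h.bel_iff hx hy).1 h1) ((h.bel_iff hx hz).1 h2)
      ((h.ne_iff hy hz).1 hne)
  · intro x hx y z w h1 h2 h3 n1 n2 n3 t1 t2 t3
    have hy := h.mem_of_reach hx h1.1
    have hz := h.mem_of_reach hx h2.1
    have hw := h.mem_of_reach hx h3.1
    rw [h.R_iff hy hz hw]
    exact hv.cyc _ (im hx) _ _ _ ((h.bel_iff hx hy).1 h1) ((h.bel_iff hx hz).1 h2)
      ((h.bel_iff hx hw).1 h3) ((h.ne_iff hy hz).1 n1) ((h.ne_iff hz hw).1 n2)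
      ((h.ne_iff hw hy).1 n3) ((h.T x hx y z h1 h2 n1).1 t1) ((h.T x hx z w h2 h3 n2).1 t2)
      ((h.T x hx w y h3 h1 n3).1 t3)

/-- Restriction to a smaller closed set. -/
theorem mono (h : PIso S S' A φ) {B : Set X} (hB : B ⊆ A) (hf : ∀ x ∈ B, S.f x ∈ B)
    (hg : ∀ x ∈ B, S.g x ∈ B) : PIso S S' B φ :=
  ⟨hf, hg, h.inj.mono hB, fun x hx => h.f x (hB hx), fun x hx => h.g x (hB hx),
    fun x hx y hy => h.lt x (hB hx) y (hB hy), fun x hx => h.T x (hB hx)⟩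

theorem congr (h : PIso S S' A φ) {ψ : X → Y} (he : ∀ x ∈ A, ψ x = φ x) : PIso S S' A ψ := by
  refine ⟨h.cf, h.cg, ?_, ?_, ?_, ?_, ?_⟩
  · intro x hx y hy hxy
    rw [he x hx, he y hy] at hxy
    exact h.inj hx hy hxy
  · intro x hx; rw [he _ (h.cf x hx), he x hx]; exact h.f x hx
  · intro x hx; rw [he _ (h.cg x hx), he x hx]; exact h.g x hx
  · intro x hx y hy; rw [he x hx, he y hy]; exact h.lt x hx y hy
  · intro x hx y z h1 h2 hne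
    rw [he x hx, he y (h.mem_of_reach hx h1.1), he z (h.mem_of_reach hx h2.1)]
    exact h.T x hx y z h1 h2 hne

theorem comp {S'' : Str Z} (h : PIso S S' A φ) {B : Set Y} {ψ : Y → Z}
    (h' : PIso S' S'' B ψ) (hAB : ∀ x ∈ A, φ x ∈ B) : PIso S S'' A (ψ ∘ φ) := by
  refine ⟨h.cf, h.cg, ?_, ?_, ?_, ?_, ?_⟩
  · intro x hx y hy hxy
    exact h.inj hx hy (h'.inj (hAB x hx) (hAB y hy) hxy)
  · intro x hx; simp only [Function.comp]; rw [h.f x hx, h'.f _ (hAB x hx)]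
  · intro x hx; simp only [Function.comp]; rw [h.g x hx, h'.g _ (hAB x hx)]
  · intro x hx y hy; rw [h.lt x hx y hy, h'.lt _ (hAB x hx) _ (hAB y hy)]; rfl
  · intro x hx y z h1 h2 hne
    have hy := h.mem_of_reach hx h1.1
    have hz := h.mem_of_reach hx h2.1
    rw [h.T x hx y z h1 h2 hne, h'.T _ (hAB x hx) _ _ ((h.bel_iff hx hy).1 h1)
      ((h.bel_iff hx hz).1 h2) ((h.ne_iff hy hz).1 hne)]
    rfl

end PIso

/-- The identity on a closed set. -/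
theorem PIso.refl' {S : Str X} {A : Set X} (hf : ∀ x ∈ A, S.f x ∈ A) (hg : ∀ x ∈ A, S.g x ∈ A) :
    PIso S S A id :=
  ⟨hf, hg, fun _ _ _ _ h => h, fun _ _ => rfl, fun _ _ => rfl, fun _ _ _ _ => Iff.rfl,
    fun _ _ _ _ _ _ _ => Iff.rfl⟩

/-- Validity transfers from the source to the image. -/
theorem PIso.validOn_image {S : Str X} {S' : Str Y} {A : Set X} {φ : X → Y}
    (h : PIso S S' A φ) (hv : S.ValidOn A) : S'.ValidOn (φ '' A) := by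
  refine ⟨?_, ?_, ?_, ?_, ?_, ?_, ?_, ?_⟩
  · rintro _ ⟨x, hx, rfl⟩; exact ⟨S.f x, h.cf x hx, h.f x hx⟩
  · rintro _ ⟨x, hx, rfl⟩; exact ⟨S.g x, h.cg x hx, h.g x hx⟩
  · rintro _ ⟨x, hx, rfl⟩; rw [← h.lt x hx x hx]; exact hv.irrefl x hx
  · rintro _ ⟨x, hx, rfl⟩ _ ⟨y, hy, rfl⟩ _ ⟨z, hz, rfl⟩
    rw [← h.lt x hx y hy, ← h.lt y hy z hz, ← h.lt x hx z hz]
    exact hv.trans x hx y hy z hz
  · rintro _ ⟨x, hx, rfl⟩ _ ⟨y, hy, rfl⟩ hne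
    rw [← h.lt x hx y hy, ← h.lt y hy x hx]
    exact hv.tri x hx y hy ((h.ne_iff hx hy).2 hne)
  · rintro _ ⟨x, hx, rfl⟩ _ ⟨y, hy, rfl⟩ h1 h2
    rw [hv.acyc x hx y hy ((h.reach_iff hx hy).2 h1) ((h.reach_iff hy hx).2 h2)]
  · rintro _ ⟨x, hx, rfl⟩ y' z' h1 h2 hne
    obtain ⟨y, b1, rfl⟩ := h.bel_inv hx h1
    obtain ⟨z, b2, rfl⟩ := h.bel_inv hx h2
    have hy := h.mem_of_reach hx b1.1
    have hz := h.mem_of_reach hx b2.1
    have hne' := (h.ne_iff hy hz).2 hne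
    rw [← h.T x hx y z b1 b2 hne', ← h.T x hx z y b2 b1 hne'.symm]
    exact hv.tour x hx y z b1 b2 hne'
  · rintro _ ⟨x, hx, rfl⟩ y' z' w' h1 h2 h3 n1 n2 n3 t1 t2 t3
    obtain ⟨y, b1, rfl⟩ := h.bel_inv hx h1
    obtain ⟨z, b2, rfl⟩ := h.bel_inv hx h2
    obtain ⟨w, b3, rfl⟩ := h.bel_inv hx h3
    have hy := h.mem_of_reach hx b1.1
    have hz := h.mem_of_reach hx b2.1
    have hw := h.mem_of_reach hx b3.1
    have m1 := (h.ne_iff hy hz).2 n1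
    have m2 := (h.ne_iff hz hw).2 n2
    have m3 := (h.ne_iff hw hy).2 n3
    rw [← h.R_iff hy hz hw]
    exact hv.cyc x hx y z w b1 b2 b3 m1 m2 m3 ((h.T x hx y z b1 b2 m1).2 t1)
      ((h.T x hx z w b2 b3 m2).2 t2) ((h.T x hx w y b3 b1 m3).2 t3)

end H92SWIR
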