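import Pool.Agent.H92SWIR.SWIR

/-!
# The reduct to `R` is the generic `H₄`-free 3-hypertournament
-/

open FirstOrder FirstOrder.Language FirstOrder.Language.Structure Set

namespace H92SWIR

universe u v

instance : LR.IsRelational := fun _ => inferInstanceAs (IsEmpty Empty)

instance : IsEmpty (LR.Relations 0) := ⟨fun r => by cases r⟩

/-- The ternary relation of an `LR`-structure. -/
def rel (N : Type u) [LR.Structure N] (x y z : N) : Prop := RelMap rR ![x, y, z]

/-- 3-hypertournaments: the relation `R` holds for triples of distinct points only, is invariant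
under rotation, and of the two cyclic orderings of three distinct points exactly one is chosen. -/
structure IsHypertournament (N : Type u) [LR.Structure N] : Prop where
  ne : ∀ x y z : N, rel N x y z → x ≠ y ∧ y ≠ z ∧ z ≠ x
  rot : ∀ x y z : N, rel N x y z → rel N y z x
  one : ∀ x y z : N, x ≠ y → y ≠ z → z ≠ x → (rel N x y z ↔ ¬ rel N x z y)

/-- There is a copy of `H₄`: in a 3-hypertournament the points `v₀, v₁, v₂, v₃` are then
automatically distinct and the four `R`-triples below (with their rotations) are all the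
`R`-triples of the induced substructure. -/
def HasH4 (N : Type u) [LR.Structure N] : Prop :=
  ∃ v₀ v₁ v₂ v₃ : N, rel N v₀ v₁ v₃ ∧ rel N v₁ v₂ v₃ ∧ rel N v₂ v₀ v₃ ∧ rel N v₀ v₂ v₁

/-- The class of all finite `H₄`-free 3-hypertournaments. -/
def classW : Set (CategoryTheory.Bundled.{0} LR.Structure) :=
  {N | Finite N ∧ IsHypertournament N ∧ ¬ HasH4 N}

/-- Compatibility of an `LR`-structure with `S`. -/
def CompatR {X : Type u} (S : Str X) [LR.Structure X] : Prop :=
  ∀ x y z : X, rel X x y z ↔ S.R x y z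

/-- The `LR`-structure given by `S`. -/
@[reducible] def Str.toR {X : Type u} (S : Str X) : LR.Structure X where
  funMap := fun {_} (F : Empty) => F.elim
  RelMap := fun {n} (r : RelR n) =>
    match n, r with
    | _, .R => fun v => S.R (v 0) (v 1) (v 2)

theorem Str.toR_compat {X : Type u} (S : Str X) : @CompatR X S S.toR := by
  intro x y z
  rfl

theorem relMap_rR {N : Type u} [LR.Structure N] (v : Fin 3 → N) :
    RelMap rR v ↔ rel N (v 0) (v 1) (v 2) := by
  unfold rel
  have : v = ![v 0, v 1, v 2] := by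
    funext i
    fin_cases i <;> rfl
  exact iff_of_eq (congrArg _ this)

theorem rel_embedding {N : Type u} {M : Type v} [LR.Structure N] [LR.Structure M]
    (e : N ↪[LR] M) (x y z : N) : rel M (e x) (e y) (e z) ↔ rel N x y z := by
  have h := e.map_rel rR ![x, y, z]
  rw [relMap_rR] at h
  exact h

theorem rel_sub {M : Type v} [LR.Structure M] (P : LR.Substructure M) (x y z : P) :
    rel P x y z ↔ rel M (x : M) y z := (rel_embedding P.subtype x y z).symm

variable {X : Type u} {S : Str X}

theorem compatR_hyper [LR.Structure X] (hr : CompatR S) (hv : S.ValidOn univ) :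
    IsHypertournament X where
  ne := fun x y z h => ((hr x y z).1 h).1
  rot := fun x y z h => (hr y z x).2 (Str.R_rot ((hr x y z).1 h))
  one := fun x y z h1 h2 h3 => by
    rw [hr x y z, hr x z y]
    exact hv.R_swap trivial trivial trivial h1 h2 h3

theorem compatR_noH4 [LR.Structure X] (hr : CompatR S) (hv : S.ValidOn univ) : ¬ HasH4 X := by
  rintro ⟨v₀, v₁, v₂, v₃, h1, h2, h3, h4⟩
  rw [hr] at h1 h2 h3 h4
  exact hv.noH4 (x := v₃) (y := v₀) (z := v₁) (w := v₂) trivial trivial trivial trivial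
    ⟨Str.R_rot (Str.R_rot h1), Str.R_rot (Str.R_rot h2), Str.R_rot (Str.R_rot h3), h4⟩

/-- Every finite set lies below some element of a rich structure. -/
theorem Str.Rich.exists_above (hS : S.Rich) (B : Finset X) : ∃ y, ∀ b ∈ B, S.Reach y b := by
  classical
  have hv := hS.valid
  induction B using Finset.induction_on with
  | empty =>
    obtain ⟨x, -⟩ := hS.ext ∅ none none (fun _ => True) (fun _ _ => True) (by simp) (by simp)
      (by simp) (by simp) (by simp)
      (by rintro y z (⟨a, h, -⟩ | ⟨a, h, -⟩) <;> cases h)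
      (by rintro y z w (⟨a, h, -⟩ | ⟨a, h, -⟩) <;> cases h)
    exact ⟨x, by simp⟩
  | insert b B _ ih =>
    obtain ⟨y, hy⟩ := ih
    obtain ⟨D, hD, hDf, hDg⟩ := hS.exists_closed {y, b}
    have hyD : y ∈ D := hD (by simp)
    have hbD : b ∈ D := hD (by simp)
    obtain ⟨x, hx, hxf, hxg, -⟩ := hS.ext D (some y) (some b) (fun _ => True)
      (fun y z => S.lt y z) hDf hDg
      (fun a ha => by cases ha; exact hyD) (fun a ha => by cases ha; exact hbD)
      (fun _ _ _ _ _ _ => trivial)
      (by
        intro y z _ _ hne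
        constructor
        · exact fun h1 h2 => hv.lt_asymm (C := univ) trivial trivial h1 h2
        · intro h1
          rcases hv.tri y trivial z trivial hne with h2 | h2
          · exact h2
          · exact (h1 h2).elim)
      (by
        intro y z w _ _ _ _ _ _ h1 h2 h3
        exact (hv.irrefl y trivial (hv.trans _ trivial _ trivial _ trivial
          (hv.trans _ trivial _ trivial _ trivial h1 h2) h3)).elim)
    refine ⟨x, fun c hc => ?_⟩
    rcases Finset.mem_insert.1 hc with rfl | hc
    · have h1 : S.Reach x (S.g x) := (Str.Reach.refl x).g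
      rw [hxg] at h1
      exact h1
    · have h1 : S.Reach x (S.f x) := (Str.Reach.refl x).f
      rw [hxf] at h1
      exact Str.Reach.trans' h1 (hy c hc)

/-- The one-point extension property of the reduct. -/
theorem Str.Rich.ext_R (hS : S.Rich) (B : Finset X) (T : X → X → Prop)
    (ht : ∀ y ∈ B, ∀ z ∈ B, y ≠ z → (T y z ↔ ¬ T z y))
    (hc : ∀ y ∈ B, ∀ z ∈ B, ∀ w ∈ B, y ≠ z → z ≠ w → w ≠ y → T y z → T z w → T w y →
      S.R y z w) :
    ∃ x, x ∉ B ∧ ∀ y ∈ B, ∀ z ∈ B, y ≠ z → (S.R x y z ↔ T y z) := by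
  classical
  have hv := hS.valid
  obtain ⟨y₀, hy₀⟩ := hS.exists_above B
  obtain ⟨D, hD, hDf, hDg⟩ := hS.exists_closed (insert y₀ B)
  have hyD : y₀ ∈ D := hD (Finset.mem_insert_self _ _)
  have hBD : ∀ b ∈ B, b ∈ D := fun b hb => hD (Finset.mem_insert_of_mem hb)
  have asym : ∀ x y, S.lt x y → S.lt y x → False :=
    fun x y => hv.lt_asymm (C := univ) trivial trivial
  obtain ⟨T', hT'⟩ : ∃ T' : X → X → Prop, T' = fun y z =>
    (y ∈ B ∧ z ∈ B ∧ T y z) ∨ (y ∈ B ∧ z ∉ B) ∨ (y ∉ B ∧ z ∉ B ∧ S.lt y z) := ⟨_, rfl⟩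
  have T1 : ∀ y z, y ∈ B → z ∈ B → (T' y z ↔ T y z) := by
    intro y z hy hz; rw [hT']; simp [hy, hz]
  have T2 : ∀ y z, y ∈ B → z ∉ B → T' y z := by
    intro y z hy hz; rw [hT']; simp [hy, hz]
  have T3 : ∀ y z, y ∉ B → z ∈ B → ¬ T' y z := by
    intro y z hy hz; rw [hT']; simp [hy, hz]
  have T4 : ∀ y z, y ∉ B → z ∉ B → (T' y z ↔ S.lt y z) := by
    intro y z hy hz; rw [hT']; simp [hy, hz]
  obtain ⟨x, hx, hxf, -, -, hxT⟩ := hS.ext D (some y₀) none (fun _ => True) T' hDf hDg
    (fun a ha => by cases ha; exact hyD) (fun a ha => by cases ha)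
    (fun _ _ _ _ _ _ => trivial)
    (by
      intro y z _ _ hne
      by_cases hy : y ∈ B <;> by_cases hz : z ∈ B
      · rw [T1 y z hy hz, T1 z y hz hy]; exact ht y hy z hz hne
      · exact iff_of_true (T2 y z hy hz) (T3 z y hz hy)
      · exact iff_of_false (T3 y z hy hz) (not_not.2 (T2 z y hz hy))
      · rw [T4 y z hy hz, T4 z y hz hy]
        constructor
        · exact fun h1 h2 => asym _ _ h1 h2
        · intro h1
          rcases hv.tri y trivial z trivial hne with h2 | h2
          · exact h2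
          · exact (h1 h2).elim)
    (by
      intro y z w _ _ _ n1 n2 n3 t1 t2 t3
      by_cases hy : y ∈ B
      · have hw : w ∈ B := by
          by_contra hw; exact T3 w y hw hy t3
        have hz : z ∈ B := by
          by_contra hz; exact T3 z w hz hw t2
        exact hc y hy z hz w hw n1 n2 n3 ((T1 y z hy hz).1 t1) ((T1 z w hz hw).1 t2)
          ((T1 w y hw hy).1 t3)
      · have hz : z ∉ B := fun hz => T3 y z hy hz t1
        have hw : w ∉ B := fun hw => T3 z w hz hw t2
        rw [T4 y z hy hz] at t1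
        rw [T4 z w hz hw] at t2
        rw [T4 w y hw hy] at t3
        exact (hv.irrefl y trivial (hv.trans _ trivial _ trivial _ trivial
          (hv.trans _ trivial _ trivial _ trivial t1 t2) t3)).elim)
  refine ⟨x, fun h => hx (hBD x h), ?_⟩
  intro y hy z hz hne
  have hr : S.Reach x y₀ := by
    have h1 : S.Reach x (S.f x) := (Str.Reach.refl x).f
    rw [hxf] at h1
    exact h1
  have by' : S.Bel y x := ⟨hr.trans' (hy₀ y hy), by rintro rfl; exact hx (hBD y hy)⟩
  have bz' : S.Bel z x := ⟨hr.trans' (hy₀ z hz), by rintro rfl; exact hx (hBD z hz)⟩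
  rw [hv.R_top trivial by' bz' hne, hxT y z (Or.inl ⟨y₀, rfl, hy₀ y hy⟩)
    (Or.inl ⟨y₀, rfl, hy₀ z hz⟩) hne, T1 y z hy hz]

/-- Extension property for finite partial embeddings of `H₄`-free 3-hypertournaments. -/
theorem CompatR.isExtensionPair {N : Type v} [LR.Structure N] [LR.Structure X] (hr : CompatR S)
    (hS : S.Rich) (hN : IsHypertournament N) (hN4 : ¬ HasH4 N) : LR.IsExtensionPair N X := by
  classical
  have hv := hS.valid
  rw [isExtensionPair_iff_exists_embedding_closure_singleton_sup]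
  intro P hP e m
  have hPfin : (P : Set N).Finite := by
    have := Substructure.fg_iff_finite.1 hP
    exact Set.toFinite _
  have memsup : ∀ z : N, z ∈ Substructure.closure LR {m} ⊔ P ↔ z = m ∨ z ∈ P := by
    intro z
    have h1 : Substructure.closure LR {m} ⊔ P = Substructure.closure LR ({m} ∪ (P : Set N)) := by
      rw [Substructure.closure_union, Substructure.closure_eq]
    rw [h1, Substructure.mem_closure_iff_of_isRelational]
    rfl
  by_cases hm : m ∈ P
  · -- nothing to do
    have hle : Substructure.closure LR {m} ⊔ P ≤ P := by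
      intro z hz
      rcases (memsup z).1 hz with rfl | h
      · exact hm
      · exact h
    refine ⟨e.comp (Substructure.inclusion hle), ?_⟩
    ext z
    rfl
  · obtain ⟨B, hB⟩ : ∃ B : Finset X, ∀ x, x ∈ B ↔ ∃ a, ∃ ha : a ∈ P, e ⟨a, ha⟩ = x := by
      have : (Set.range e).Finite := by
        have := hPfin.to_subtype
        exact Set.finite_range e
      refine ⟨this.toFinset, fun x => ?_⟩
      rw [Set.Finite.mem_toFinset]
      constructor
      · rintro ⟨⟨a, ha⟩, rfl⟩; exact ⟨a, ha, rfl⟩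
      · rintro ⟨a, ha, rfl⟩; exact ⟨⟨a, ha⟩, rfl⟩
    have Tspec : ∀ (a : N) (ha : a ∈ P) (b : N) (hb : b ∈ P),
        ((∃ a', ∃ ha' : a' ∈ P, ∃ b', ∃ hb' : b' ∈ P, e ⟨a', ha'⟩ = e ⟨a, ha⟩ ∧
          e ⟨b', hb'⟩ = e ⟨b, hb⟩ ∧ rel N m a' b') ↔ rel N m a b) := by
      intro a ha b hb
      constructor
      · rintro ⟨a', ha', b', hb', e1, e2, h⟩
        have e3 := congrArg Subtype.val (e.injective e1)
        have e4 := congrArg Subtype.val (e.injective e2)
        simp only at e3 e4
        rw [e3, e4] at h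
        exact h
      · intro h; exact ⟨a, ha, b, hb, rfl, rfl, h⟩
    have neP : ∀ a ∈ P, m ≠ a := by rintro a ha rfl; exact hm ha
    have neq : ∀ {a b : N} {ha : a ∈ P} {hb : b ∈ P}, e ⟨a, ha⟩ ≠ e ⟨b, hb⟩ → a ≠ b := by
      rintro a b ha hb h rfl; exact h rfl
    have hRe : ∀ (a : N) (ha : a ∈ P) (b : N) (hb : b ∈ P) (c : N) (hc : c ∈ P),
        (S.R (e ⟨a, ha⟩) (e ⟨b, hb⟩) (e ⟨c, hc⟩) ↔ rel N a b c) := by
      intro a ha b hb c hc
      rw [← hr, rel_embedding e, rel_sub]
    obtain ⟨x, hxB, hxR⟩ := hS.ext_R B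
      (fun y z => ∃ a, ∃ ha : a ∈ P, ∃ b, ∃ hb : b ∈ P, e ⟨a, ha⟩ = y ∧ e ⟨b, hb⟩ = z ∧
        rel N m a b)
      (by
        intro y hy z hz hne
        obtain ⟨a, ha, rfl⟩ := (hB y).1 hy
        obtain ⟨b, hb, rfl⟩ := (hB z).1 hz
        rw [Tspec a ha b hb, Tspec b hb a ha]
        exact hN.one m a b (neP a ha) (neq hne) (neP b hb).symm)
      (by
        intro y hy z hz w hw n1 n2 n3
        obtain ⟨a, ha, rfl⟩ := (hB y).1 hy
        obtain ⟨b, hb, rfl⟩ := (hB z).1 hz
        obtain ⟨c, hc, rfl⟩ := (hB w).1 hw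
        rw [Tspec a ha b hb, Tspec b hb c hc, Tspec c hc a ha, hRe]
        intro t1 t2 t3
        rw [hN.one a b c (neq n1) (neq n2) (neq n3)]
        intro h4
        exact hN4 ⟨a, b, c, m, hN.rot _ _ _ t1, hN.rot _ _ _ t2, hN.rot _ _ _ t3, h4⟩)
    have hxne : ∀ (a : N) (ha : a ∈ P), e ⟨a, ha⟩ ≠ x := by
      intro a ha h
      exact hxB ((hB x).2 ⟨a, ha, h⟩)
    have hxR' : ∀ (a : N) (ha : a ∈ P) (b : N) (hb : b ∈ P), a ≠ b →
        (S.R x (e ⟨a, ha⟩) (e ⟨b, hb⟩) ↔ rel N m a b) := by
      intro a ha b hb hne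
      rw [hxR _ ((hB _).2 ⟨a, ha, rfl⟩) _ ((hB _).2 ⟨b, hb, rfl⟩)
        (fun h => hne (congrArg Subtype.val (e.injective h))), Tspec a ha b hb]
    -- the extended map
    obtain ⟨G, hG⟩ : ∃ G : N → X, G = fun z => if hz : z ∈ P then e ⟨z, hz⟩ else x := ⟨_, rfl⟩
    have GP : ∀ z (hz : z ∈ P), G z = e ⟨z, hz⟩ := by
      intro z hz; rw [hG]; exact dif_pos hz
    have Gm : G m = x := by rw [hG]; exact dif_neg hm
    have Ginj : ∀ z w : N, (z = m ∨ z ∈ P) → (w = m ∨ w ∈ P) → G z = G w → z = w := by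
      rintro z w (rfl | hz) (rfl | hw) h
      · rfl
      · rw [Gm, GP w hw] at h; exact (hxne w hw h.symm).elim
      · rw [Gm, GP z hz] at h; exact (hxne z hz h).elim
      · rw [GP z hz, GP w hw] at h; exact congrArg Subtype.val (e.injective h)
    have hX := compatR_hyper hr hv
    have Gm1 : ∀ b c : N, b ∈ P → c ∈ P → (rel X (G m) (G b) (G c) ↔ rel N m b c) := by
      intro b c hb hc
      by_cases hbc : b = c
      · subst hbc
        exact iff_of_false (fun h => (hX.ne _ _ _ h).2.1 rfl) (fun h => (hN.ne _ _ _ h).2.1 rfl)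
      · rw [hr, Gm, GP b hb, GP c hc]
        exact hxR' b hb c hc hbc
    have rotX : ∀ a b c : X, rel X a b c ↔ rel X b c a := fun a b c =>
      ⟨hX.rot a b c, fun h => hX.rot _ _ _ (hX.rot _ _ _ h)⟩
    have rotN : ∀ a b c : N, rel N a b c ↔ rel N b c a := fun a b c =>
      ⟨hN.rot a b c, fun h => hN.rot _ _ _ (hN.rot _ _ _ h)⟩
    have Grel : ∀ a b c : N, (a = m ∨ a ∈ P) → (b = m ∨ b ∈ P) → (c = m ∨ c ∈ P) →
        (rel X (G a) (G b) (G c) ↔ rel N a b c) := by
      intro a b c ha hb hc
      by_cases hab : a = b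
      · subst hab
        exact iff_of_false (fun h => (hX.ne _ _ _ h).1 rfl) (fun h => (hN.ne _ _ _ h).1 rfl)
      by_cases hbc : b = c
      · subst hbc
        exact iff_of_false (fun h => (hX.ne _ _ _ h).2.1 rfl) (fun h => (hN.ne _ _ _ h).2.1 rfl)
      by_cases hca : c = a
      · subst hca
        exact iff_of_false (fun h => (hX.ne _ _ _ h).2.2 rfl) (fun h => (hN.ne _ _ _ h).2.2 rfl)
      by_cases ha' : a = m
      · subst ha'
        exact Gm1 b c (hb.resolve_left (Ne.symm hab)) (hc.resolve_left hca)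
      have haP := ha.resolve_left ha'
      by_cases hb' : b = m
      · subst hb'
        rw [rotX, rotN]
        exact Gm1 c a (hc.resolve_left (Ne.symm hbc)) haP
      have hbP := hb.resolve_left hb'
      by_cases hc' : c = m
      · subst hc'
        rw [rotX, rotX, rotN, rotN b]
        exact Gm1 a b haP hbP
      have hcP := hc.resolve_left hc'
      rw [hr, GP a haP, GP b hbP, GP c hcP, hRe]
    refine ⟨{ toFun := fun z => G z, inj' := ?_, map_fun' := ?_, map_rel' := ?_ }, ?_⟩
    · intro z w h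
      exact Subtype.ext (Ginj z w ((memsup _).1 z.2) ((memsup _).1 w.2) h)
    · intro n F; exact F.elim
    · intro n r v
      cases r with
      | R =>
        show RelMap rR _ ↔ RelMap rR v
        rw [relMap_rR, relMap_rR, rel_sub]
        exact Grel _ _ _ ((memsup _).1 (v 0).2) ((memsup _).1 (v 1).2) ((memsup _).1 (v 2).2)
    · ext z
      show e z = G z
      rw [GP z z.2]

/-- Pulling back along embeddings. -/
theorem IsHypertournament.of_embedding {N : Type u} {M : Type v} [LR.Structure N]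
    [LR.Structure M] (e : N ↪[LR] M) (h : IsHypertournament M) : IsHypertournament N where
  ne := fun x y z hh => by
    have := h.ne _ _ _ ((rel_embedding e x y z).2 hh)
    exact ⟨fun k => this.1 (by rw [k]), fun k => this.2.1 (by rw [k]),
      fun k => this.2.2 (by rw [k])⟩
  rot := fun x y z hh => (rel_embedding e y z x).1 (h.rot _ _ _ ((rel_embedding e x y z).2 hh))
  one := fun x y z h1 h2 h3 => by
    rw [← rel_embedding e, ← rel_embedding e]
    exact h.one _ _ _ (fun k => h1 (e.injective k)) (fun k => h2 (e.injective k))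
      (fun k => h3 (e.injective k))

theorem HasH4.of_embedding {N : Type u} {M : Type v} [LR.Structure N]
    [LR.Structure M] (e : N ↪[LR] M) (h : HasH4 N) : HasH4 M := by
  obtain ⟨a, b, c, d, h1, h2, h3, h4⟩ := h
  exact ⟨e a, e b, e c, e d, (rel_embedding e _ _ _).2 h1, (rel_embedding e _ _ _).2 h2,
    (rel_embedding e _ _ _).2 h3, (rel_embedding e _ _ _).2 h4⟩

/-- The reduct of a rich structure is the Fraïssé limit of the class of all finite `H₄`-free
3-hypertournaments. -/
theorem CompatR.isFraisseLimit {X : Type} {S : Str X} [LR.Structure X] [Countable X]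
    (hr : CompatR S) (hS : S.Rich) : IsFraisseLimit classW X := by
  have hv := hS.valid
  have hX := compatR_hyper hr hv
  have hX4 := compatR_noH4 hr hv
  refine ⟨?_, ?_⟩
  · rw [isUltrahomogeneous_iff_IsExtensionPair (cg_of_countable)]
    exact hr.isExtensionPair hS hX hX4
  · ext N
    constructor
    · rintro ⟨h1, ⟨e⟩⟩
      exact ⟨Structure.fg_iff_finite.1 h1, hX.of_embedding e, fun h => hX4 (h.of_embedding e)⟩
    · rintro ⟨h1, h2, h3⟩
      have hfg : Structure.FG LR N := Structure.fg_iff_finite.2 h1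
      obtain ⟨e, -⟩ := embedding_from_cg hfg.cg default (hr.isExtensionPair hS h2 h3)
      exact ⟨hfg, ⟨e⟩⟩

end H92SWIR
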