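import Pool.Agent.H92SWIR.Lang

/-!
# The stationary weak independence relation
-/

open FirstOrder FirstOrder.Language FirstOrder.Language.Structure Set

namespace H92SWIR

universe u v

variable {X : Type u} {Y : Type v}

/-- Gluing two partial isomorphisms given by the same map. -/
theorem PIso.glue {S : Str X} {S' : Str Y} {P Q : Set X} {ρ : X → Y} (h1 : PIso S S' P ρ)
    (h2 : PIso S S' Q ρ) (hinj : ∀ x ∈ P, ∀ y ∈ Q, ρ x = ρ y → x = y)
    (hlt : ∀ x ∈ P, ∀ y ∈ Q, (S.lt x y ↔ S'.lt (ρ x) (ρ y)))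
    (hlt' : ∀ x ∈ Q, ∀ y ∈ P, (S.lt x y ↔ S'.lt (ρ x) (ρ y))) :
    PIso S S' (P ∪ Q) ρ := by
  refine ⟨?_, ?_, ?_, ?_, ?_, ?_, ?_⟩
  · rintro x (hx | hx)
    · exact Or.inl (h1.cf x hx)
    · exact Or.inr (h2.cf x hx)
  · rintro x (hx | hx)
    · exact Or.inl (h1.cg x hx)
    · exact Or.inr (h2.cg x hx)
  · rintro x (hx | hx) y (hy | hy) e
    · exact h1.inj hx hy e
    · exact hinj x hx y hy e
    · exact (hinj y hy x hx e.symm).symm
    · exact h2.inj hx hy e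
  · rintro x (hx | hx)
    · exact h1.f x hx
    · exact h2.f x hx
  · rintro x (hx | hx)
    · exact h1.g x hx
    · exact h2.g x hx
  · rintro x (hx | hx) y (hy | hy)
    · exact h1.lt x hx y hy
    · exact hlt x hx y hy
    · exact hlt' x hx y hy
    · exact h2.lt x hx y hy
  · rintro x (hx | hx)
    · exact h1.T x hx
    · exact h2.T x hx

/-- An automorphism gives a partial isomorphism on every closed set. -/
theorem Compat.aut_piso {S : Str X} [LE.Structure X] (hc : Compat S) (hv : S.ValidOn univ)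
    (P : LE.Substructure X) (σ : X ≃[LE] X) : PIso S S (P : Set X) σ :=
  hc.toPIso hc hv hv (σ.toEmbedding.comp P.subtype) (fun _ _ => rfl)

/-- The independence relation of the expansion. -/
def Str.ind (S : Str X) [LE.Structure X] (A B C : LE.Substructure X) : Prop :=
  ∀ b ∈ B, b ∉ A → ∀ c ∈ C, c ∉ A → (S.lt b c ∨ ∃ a ∈ A, S.lt c a ∧ S.lt a b)

section

variable {S : Str X} [LE.Structure X]

theorem ind_disjoint (hv : S.ValidOn univ) {A B C : LE.Substructure X} (h : S.ind A B C)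
    {x : X} (hB : x ∈ B) (hC : x ∈ C) : x ∈ A := by
  by_contra hx
  rcases h x hB hx x hC hx with h1 | ⟨a, _, h1, h2⟩
  · exact hv.irrefl x trivial h1
  · exact hv.lt_asymm (C := univ) trivial trivial h1 h2

theorem Compat.lt_aut (hc : Compat S) (σ : X ≃[LE] X) (x y : X) :
    S.lt (σ x) (σ y) ↔ S.lt x y := by
  have h1 := σ.map_rel ltE (![x, y])
  rw [hc.lt, hc.lt] at h1
  exact h1

theorem Compat.ind_inv (hc : Compat S) (σ : X ≃[LE] X) {A B C : LE.Substructure X}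
    (h : S.ind A B C) :
    S.ind (A.map σ.toHom) (B.map σ.toHom) (C.map σ.toHom) := by
  rintro _ ⟨b, hb, rfl⟩ hbA _ ⟨c, hc', rfl⟩ hcA
  have hb' : b ∉ A := fun hh => hbA ⟨b, hh, rfl⟩
  have hc'' : c ∉ A := fun hh => hcA ⟨c, hh, rfl⟩
  rcases h b hb hb' c hc' hc'' with h1 | ⟨a, ha, h1, h2⟩
  · exact Or.inl ((hc.lt_aut σ b c).2 h1)
  · exact Or.inr ⟨σ a, ⟨a, ha, rfl⟩, (hc.lt_aut σ c a).2 h1, (hc.lt_aut σ a b).2 h2⟩

theorem Compat.ind_mon_right (hc : Compat S) {A B C D : LE.Substructure X}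
    (h : S.ind A B (C ⊔ D)) : S.ind A B C ∧ S.ind (A ⊔ C) B D := by
  refine ⟨fun b hb hbA c hc' hcA => h b hb hbA c ((hc.mem_sup C D).2 (Or.inl hc')) hcA, ?_⟩
  intro b hb hbA d hd hdA
  rw [hc.mem_sup] at hbA hdA
  rcases h b hb (fun hh => hbA (Or.inl hh)) d ((hc.mem_sup C D).2 (Or.inr hd))
    (fun hh => hdA (Or.inl hh)) with h1 | ⟨a, ha, h1, h2⟩
  · exact Or.inl h1
  · exact Or.inr ⟨a, (hc.mem_sup A C).2 (Or.inl ha), h1, h2⟩

theorem Compat.ind_mon_left (hc : Compat S) {A B C D : LE.Substructure X}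
    (h : S.ind A (B ⊔ D) C) : S.ind A B C ∧ S.ind (A ⊔ B) D C := by
  refine ⟨fun b hb hbA c hc' hcA => h b ((hc.mem_sup B D).2 (Or.inl hb)) hbA c hc' hcA, ?_⟩
  intro d hd hdA c hc' hcA
  rw [hc.mem_sup] at hdA hcA
  rcases h d ((hc.mem_sup B D).2 (Or.inr hd)) (fun hh => hdA (Or.inl hh)) c hc'
    (fun hh => hcA (Or.inl hh)) with h1 | ⟨a, ha, h1, h2⟩
  · exact Or.inl h1
  · exact Or.inr ⟨a, (hc.mem_sup A B).2 (Or.inl ha), h1, h2⟩

theorem Compat.ind_tr_right (hc : Compat S) (hv : S.ValidOn univ) {A B C D : LE.Substructure X}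
    (h : S.ind A B C) (h' : S.ind (A ⊔ C) B D) : S.ind A B (C ⊔ D) := by
  intro b hb hbA e he heA
  by_cases heC : e ∈ C
  · exact h b hb hbA e heC heA
  have heD : e ∈ D := ((hc.mem_sup C D).1 he).resolve_left heC
  have hbC : b ∉ C := fun hh => hbA (ind_disjoint hv h hb hh)
  rcases h' b hb (fun hh => ((hc.mem_sup A C).1 hh).elim hbA hbC) e heD
    (fun hh => ((hc.mem_sup A C).1 hh).elim heA heC) with h1 | ⟨a, ha, h1, h2⟩
  · exact Or.inl h1
  · by_cases haA : a ∈ A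
    · exact Or.inr ⟨a, haA, h1, h2⟩
    · have haC : a ∈ C := ((hc.mem_sup A C).1 ha).resolve_left haA
      rcases h b hb hbA a haC haA with h3 | ⟨a', ha', h3, h4⟩
      · exact (hv.lt_asymm (C := univ) trivial trivial h2 h3).elim
      · exact Or.inr ⟨a', ha', hv.trans e trivial a trivial a' trivial h1 h3, h4⟩

theorem Compat.ind_tr_left (hc : Compat S) (hv : S.ValidOn univ) {A B C D : LE.Substructure X}
    (h : S.ind A B C) (h' : S.ind (A ⊔ B) D C) : S.ind A (B ⊔ D) C := by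
  intro d hd hdA c hc' hcA
  by_cases hdB : d ∈ B
  · exact h d hdB hdA c hc' hcA
  have hdD : d ∈ D := ((hc.mem_sup B D).1 hd).resolve_left hdB
  have hcB : c ∉ B := fun hh => hcA (ind_disjoint hv h hh hc')
  rcases h' d hdD (fun hh => ((hc.mem_sup A B).1 hh).elim hdA hdB) c hc'
    (fun hh => ((hc.mem_sup A B).1 hh).elim hcA hcB) with h1 | ⟨a, ha, h1, h2⟩
  · exact Or.inl h1
  · by_cases haA : a ∈ A
    · exact Or.inr ⟨a, haA, h1, h2⟩
    · have haB : a ∈ B := ((hc.mem_sup A B).1 ha).resolve_left haA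
      rcases h a haB haA c hc' hcA with h3 | ⟨a', ha', h3, h4⟩
      · exact (hv.lt_asymm (C := univ) trivial trivial h1 h3).elim
      · exact Or.inr ⟨a', ha', h3, hv.trans a' trivial a trivial d trivial h4 h2⟩

theorem Compat.ind_ex (hc : Compat S) (hS : S.Rich) (A B C : LE.Substructure X) (hA : A.FG)
    (hB : B.FG) (hC : C.FG) :
    ∃ σ : X ≃[LE] X, (∀ a ∈ A, σ a = a) ∧ S.ind A (B.map σ.toHom) C := by
  classical
  obtain ⟨A', hA'⟩ : ∃ A' : Finset X, (A' : Set X) = (A : Set X) :=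
    ⟨(hc.finite_of_fg hS hA).toFinset, Set.Finite.coe_toFinset _⟩
  obtain ⟨B', hB'⟩ : ∃ B' : Finset X, (B' : Set X) = (B : Set X) :=
    ⟨(hc.finite_of_fg hS hB).toFinset, Set.Finite.coe_toFinset _⟩
  obtain ⟨C', hC'⟩ : ∃ C' : Finset X, (C' : Set X) = (C : Set X) :=
    ⟨(hc.finite_of_fg hS hC).toFinset, Set.Finite.coe_toFinset _⟩
  have mA : ∀ x, x ∈ A' ↔ x ∈ A := fun x => by
    rw [← Finset.mem_coe, hA', SetLike.mem_coe]
  have mB : ∀ x, x ∈ B' ↔ x ∈ B := fun x => by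
    rw [← Finset.mem_coe, hB', SetLike.mem_coe]
  have mC : ∀ x, x ∈ C' ↔ x ∈ C := fun x => by
    rw [← Finset.mem_coe, hC', SetLike.mem_coe]
  have h1 : PIso S S (A' : Set X) id :=
    PIso.refl' (fun x hx => (mA _).2 (hc.mem_f A ((mA _).1 hx)))
      (fun x hx => (mA _).2 (hc.mem_g A ((mA _).1 hx)))
  obtain ⟨ψ, h2, h3, h4⟩ := extend_piso hS hS h1 B'
    (fun x hx => (mB _).2 (hc.mem_f B ((mB _).1 hx)))
    (fun x hx => (mB _).2 (hc.mem_g B ((mB _).1 hx))) C'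
  obtain ⟨σ, hσ⟩ := hc.exists_aut hS (Finset.finite_toSet _) h2
  have hσA : ∀ a ∈ A, σ a = a := by
    intro a ha
    rw [hσ a (Finset.mem_union_left _ ((mA a).2 ha)), h3 a ((mA a).2 ha)]
    rfl
  refine ⟨σ, hσA, ?_⟩
  rintro _ ⟨b, hb, rfl⟩ hbA c hcC hcA
  have hbA' : b ∉ A := by
    intro hh
    apply hbA
    have : σ.toHom b = b := hσA b hh
    rw [this]; exact hh
  have e1 : σ.toHom b = ψ b := hσ b (Finset.mem_union_right _ ((mB b).2 hb))
  rw [e1]
  rcases h4 b ((mB b).2 hb) (fun hh => hbA' ((mA b).1 hh)) c ((mC c).2 hcC)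
    (fun a ha e => hcA (by rw [← e]; exact (mA a).1 ha)) with h5 | ⟨a, ha, h5, h6⟩
  · exact Or.inl h5
  · exact Or.inr ⟨a, (mA a).1 ha, h5, h6⟩

theorem Compat.ind_sta (hc : Compat S) (hS : S.Rich) (A B C : LE.Substructure X) (hA : A.FG)
    (hB : B.FG) (hC : C.FG) (σ τ : X ≃[LE] X) (hσ : ∀ a ∈ A, σ a = a) (hτ : ∀ a ∈ A, τ a = a)
    (h : S.ind A B C) (h' : S.ind A (B.map σ.toHom) (C.map τ.toHom)) :
    ∃ ρ : X ≃[LE] X, (∀ a ∈ A, ρ a = a) ∧ (∀ b ∈ B, ρ b = σ b) ∧ (∀ c ∈ C, ρ c = τ c) := by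
  classical
  have hv := hS.valid
  obtain ⟨ρ₀, hρ⟩ : ∃ ρ₀ : X → X, ρ₀ = fun x => if x ∈ A ⊔ B then σ x else τ x := ⟨_, rfl⟩
  have e1 : ∀ x ∈ ((A ⊔ B : LE.Substructure X) : Set X), ρ₀ x = σ x := by
    intro x hx; rw [hρ]; exact if_pos hx
  have e2 : ∀ x ∈ ((A ⊔ C : LE.Substructure X) : Set X), ρ₀ x = τ x := by
    intro x hx
    by_cases hx' : x ∈ A ⊔ B
    · have hxA : x ∈ A := by
        rcases (hc.mem_sup A B).1 hx' with h1 | h1
        · exact h1
        · rcases (hc.mem_sup A C).1 hx with h2 | h2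
          · exact h2
          · exact ind_disjoint hv h h1 h2
      rw [e1 x hx', hσ x hxA, hτ x hxA]
    · rw [hρ]; exact if_neg hx'
  have p1 : PIso S S ((A ⊔ B : LE.Substructure X) : Set X) ρ₀ :=
    (hc.aut_piso hv (A ⊔ B) σ).congr e1
  have p2 : PIso S S ((A ⊔ C : LE.Substructure X) : Set X) ρ₀ :=
    (hc.aut_piso hv (A ⊔ C) τ).congr e2
  -- automorphisms fixing `A` preserve membership in `A`
  have memσ : ∀ x, σ x ∈ A → x ∈ A := by
    intro x hx
    have h1 := hσ _ hx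
    rw [σ.injective h1] at hx
    exact hx
  have memτ : ∀ x, τ x ∈ A → x ∈ A := by
    intro x hx
    have h1 := hτ _ hx
    rw [τ.injective h1] at hx
    exact hx
  -- independence of the images
  have ind2 : ∀ b ∈ B, b ∉ A → ∀ c ∈ C, c ∉ A →
      (S.lt (σ b) (τ c) ∨ ∃ a ∈ A, S.lt c a ∧ S.lt a b) := by
    intro b hb hbA c hc' hcA
    rcases h' (σ b) ⟨b, hb, rfl⟩ (fun hh => hbA (memσ b hh)) (τ c) ⟨c, hc', rfl⟩
      (fun hh => hcA (memτ c hh)) with h1 | ⟨a, ha, h1, h2⟩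
    · exact Or.inl h1
    · refine Or.inr ⟨a, ha, ?_, ?_⟩
      · rw [← hτ a ha] at h1; exact (hc.lt_aut τ c a).1 h1
      · rw [← hσ a ha] at h2; exact (hc.lt_aut σ a b).1 h2
  have sep : ∀ b c, ∀ a ∈ A, S.lt c a → S.lt a b → S.lt (τ c) (σ b) := by
    intro b c a ha h1 h2
    have h3 : S.lt (τ c) a := by rw [← hτ a ha]; exact (hc.lt_aut τ c a).2 h1
    have h4 : S.lt a (σ b) := by rw [← hσ a ha]; exact (hc.lt_aut σ a b).2 h2
    exact hv.trans _ trivial _ trivial _ trivial h3 h4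
  have asym : ∀ x y, S.lt x y → S.lt y x → False :=
    fun x y => hv.lt_asymm (C := univ) trivial trivial
  have ltbc : ∀ b ∈ B, b ∉ A → ∀ c ∈ C, c ∉ A → (S.lt b c ↔ S.lt (σ b) (τ c)) := by
    intro b hb hbA c hc' hcA
    constructor
    · intro h1
      rcases ind2 b hb hbA c hc' hcA with h2 | ⟨a, ha, h2, h3⟩
      · exact h2
      · exact (asym _ _ h1 (hv.trans _ trivial _ trivial _ trivial h2 h3)).elim
    · intro h1
      rcases h b hb hbA c hc' hcA with h2 | ⟨a, ha, h2, h3⟩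
      · exact h2
      · exact (asym _ _ h1 (sep b c a ha h2 h3)).elim
  have ltcb : ∀ b ∈ B, b ∉ A → ∀ c ∈ C, c ∉ A → (S.lt c b ↔ S.lt (τ c) (σ b)) := by
    intro b hb hbA c hc' hcA
    constructor
    · intro h1
      rcases h b hb hbA c hc' hcA with h2 | ⟨a, ha, h2, h3⟩
      · exact (asym _ _ h1 h2).elim
      · exact sep b c a ha h2 h3
    · intro h1
      rcases ind2 b hb hbA c hc' hcA with h2 | ⟨a, ha, h2, h3⟩
      · exact (asym _ _ h1 h2).elim
      · exact hv.trans _ trivial _ trivial _ trivial h2 h3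
  have hglue := p1.glue p2
    (by
      intro x hx y hy e
      by_cases hxA : x ∈ A
      · have hx' : x ∈ A ⊔ C := (hc.mem_sup A C).2 (Or.inl hxA)
        rw [e2 x hx', e2 y hy] at e
        exact τ.injective e
      by_cases hyA : y ∈ A
      · have hy' : y ∈ A ⊔ B := (hc.mem_sup A B).2 (Or.inl hyA)
        rw [e1 x hx, e1 y hy'] at e
        exact σ.injective e
      have hxB : x ∈ B := ((hc.mem_sup A B).1 hx).resolve_left hxA
      have hyC : y ∈ C := ((hc.mem_sup A C).1 hy).resolve_left hyA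
      rw [e1 x hx, e2 y hy] at e
      exfalso
      rcases ind2 x hxB hxA y hyC hyA with h1 | ⟨a, ha, h1, h2⟩
      · rw [e] at h1; exact hv.irrefl _ trivial h1
      · have := sep x y a ha h1 h2
        rw [e] at this; exact hv.irrefl _ trivial this)
    (by
      intro x hx y hy
      by_cases hxA : x ∈ A
      · have hx' : x ∈ A ⊔ C := (hc.mem_sup A C).2 (Or.inl hxA)
        rw [e2 x hx', e2 y hy, hc.lt_aut]
      by_cases hyA : y ∈ A
      · have hy' : y ∈ A ⊔ B := (hc.mem_sup A B).2 (Or.inl hyA)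
        rw [e1 x hx, e1 y hy', hc.lt_aut]
      have hxB : x ∈ B := ((hc.mem_sup A B).1 hx).resolve_left hxA
      have hyC : y ∈ C := ((hc.mem_sup A C).1 hy).resolve_left hyA
      rw [e1 x hx, e2 y hy]
      exact ltbc x hxB hxA y hyC hyA)
    (by
      intro x hx y hy
      by_cases hxA : x ∈ A
      · have hx' : x ∈ A ⊔ B := (hc.mem_sup A B).2 (Or.inl hxA)
        rw [e1 x hx', e1 y hy, hc.lt_aut]
      by_cases hyA : y ∈ A
      · have hy' : y ∈ A ⊔ C := (hc.mem_sup A C).2 (Or.inl hyA)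
        rw [e2 x hx, e2 y hy', hc.lt_aut]
      have hxC : x ∈ C := ((hc.mem_sup A C).1 hx).resolve_left hxA
      have hyB : y ∈ B := ((hc.mem_sup A B).1 hy).resolve_left hyA
      rw [e2 x hx, e1 y hy]
      exact ltcb y hyB hyA x hxC hxA)
  have hfin : (((A ⊔ B : LE.Substructure X) : Set X) ∪
      ((A ⊔ C : LE.Substructure X) : Set X)).Finite :=
    (hc.finite_of_fg hS (hA.sup hB)).union (hc.finite_of_fg hS (hA.sup hC))
  obtain ⟨ρ, hρ'⟩ := hc.exists_aut hS hfin hglue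
  refine ⟨ρ, ?_, ?_, ?_⟩
  · intro a ha
    have ha' : a ∈ ((A ⊔ B : LE.Substructure X) : Set X) := (hc.mem_sup A B).2 (Or.inl ha)
    rw [hρ' a (Or.inl ha'), e1 a ha', hσ a ha]
  · intro b hb
    have hb' : b ∈ ((A ⊔ B : LE.Substructure X) : Set X) := (hc.mem_sup A B).2 (Or.inr hb)
    rw [hρ' b (Or.inl hb'), e1 b hb']
  · intro c hc'
    have hc'' : c ∈ ((A ⊔ C : LE.Substructure X) : Set X) := (hc.mem_sup A C).2 (Or.inr hc')
    rw [hρ' c (Or.inr hc''), e2 c hc'']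

end

/-- Orbits outside a finitely generated substructure are infinite. -/
theorem Compat.orbit_infinite {X : Type u} {S : Str X} [LE.Structure X] (hc : Compat S)
    (hS : S.Rich) (A : LE.Substructure X) (hA : A.FG) (m : X) (hm : m ∉ A) :
    {x | ∃ σ : X ≃[LE] X, (∀ a ∈ A, σ a = a) ∧ σ m = x}.Infinite := by
  intro hfin
  obtain ⟨σ, h1, h2⟩ := hc.ind_ex hS A (Substructure.closure LE {m})
    (Substructure.closure LE {x | ∃ σ : X ≃[LE] X, (∀ a ∈ A, σ a = a) ∧ σ m = x})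
    hA (Substructure.fg_closure_singleton m) (Substructure.fg_closure hfin)
  have hσm : σ m ∉ A := by
    intro hh
    have h3 := h1 _ hh
    rw [σ.injective h3] at hh
    exact hm hh
  apply hσm
  refine ind_disjoint hS.valid h2 (x := σ m) ?_ ?_
  · exact ⟨m, Substructure.subset_closure rfl, rfl⟩
  · exact Substructure.subset_closure ⟨σ, h1, rfl⟩

end H92SWIR
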