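import Pool.Agent.H92SWIR.Reduct

/-!
# Types and stationary weak independence relations
-/

open FirstOrder FirstOrder.Language FirstOrder.Language.Structure Set

namespace H92SWIR

/-- The tuples `b` and `b'` (indexed by the same index type) have the same complete type over the
substructure `A`: they satisfy the same first-order formulas with parameters from `A`. -/
def SameTp {L : FirstOrder.Language.{0, 0}} {M : Type} [L.Structure M] (A : L.Substructure M)
    {ι : Type} (b b' : ι → M) : Prop :=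
  ∀ φ : L.Formula (A ⊕ ι),
    φ.Realize (Sum.elim (fun a : A => (a : M)) b) ↔ φ.Realize (Sum.elim (fun a : A => (a : M)) b')

/-- Stationary weak independence relations on the finitely generated substructures of an
`L`-structure `M`; `ind A B C` is read: `B` is independent from `C` over `A`.  A substructure
`B'` together with a bijection `e : B ≃ B'` is used to say that `B'`, enumerated by `e`, has the
same type over `A` as `B`.  For substructures `C`, `D` the substructure generated by `C ∪ D` is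
`C ⊔ D`. -/
structure IsSWIR (L : FirstOrder.Language.{0, 0}) (M : Type) [L.Structure M]
    (ind : L.Substructure M → L.Substructure M → L.Substructure M → Prop) : Prop where
  /-- Invariance. -/
  inv : ∀ (σ : M ≃[L] M) (A B C : L.Substructure M), A.FG → B.FG → C.FG →
    ind A B C → ind (A.map σ.toHom) (B.map σ.toHom) (C.map σ.toHom)
  /-- Monotonicity on the right. -/
  mon_right : ∀ A B C D : L.Substructure M, A.FG → B.FG → C.FG → D.FG →
    ind A B (C ⊔ D) → ind A B C ∧ ind (A ⊔ C) B D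
  /-- Monotonicity on the left. -/
  mon_left : ∀ A B C D : L.Substructure M, A.FG → B.FG → C.FG → D.FG →
    ind A (B ⊔ D) C → ind A B C ∧ ind (A ⊔ B) D C
  /-- Transitivity on the right. -/
  tr_right : ∀ A B C D : L.Substructure M, A.FG → B.FG → C.FG → D.FG →
    ind A B C → ind (A ⊔ C) B D → ind A B (C ⊔ D)
  /-- Transitivity on the left. -/
  tr_left : ∀ A B C D : L.Substructure M, A.FG → B.FG → C.FG → D.FG →
    ind A B C → ind (A ⊔ B) D C → ind A (B ⊔ D) C
  /-- Existence. -/
  ex : ∀ A B C : L.Substructure M, A.FG → B.FG → C.FG →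
    ∃ (B' : L.Substructure M) (e : B ≃ B'), B'.FG ∧
      SameTp A (fun b : B => (b : M)) (fun b : B => (e b : M)) ∧ ind A B' C
  /-- Stationarity. -/
  sta : ∀ A B C B' C' : L.Substructure M, A.FG → B.FG → C.FG → B'.FG → C'.FG →
    ∀ (e : B ≃ B') (k : C ≃ C'),
      SameTp A (fun b : B => (b : M)) (fun b : B => (e b : M)) →
      SameTp A (fun c : C => (c : M)) (fun c : C => (k c : M)) →
      ind A B C → ind A B' C' →
      SameTp A (Sum.elim (fun b : B => (b : M)) (fun c : C => (c : M)))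
        (Sum.elim (fun b : B => (e b : M)) (fun c : C => (k c : M)))

/-- Conjugation by an automorphism over `A` preserves the type over `A`. -/
theorem sameTp_of_aut {L : FirstOrder.Language.{0, 0}} {M : Type} [L.Structure M]
    {A : L.Substructure M} {ι : Type} {b b' : ι → M} (σ : M ≃[L] M) (hA : ∀ a ∈ A, σ a = a)
    (hb : ∀ i, σ (b i) = b' i) : SameTp A b b' := by
  intro φ
  have h : (Sum.elim (fun a : A => (a : M)) b') = σ ∘ (Sum.elim (fun a : A => (a : M)) b) := by
    funext i
    rcases i with i | i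
    · exact (hA i i.2).symm
    · exact (hb i).symm
  rw [h]
  exact (StrongHomClass.realize_formula σ φ).symm

variable {X : Type} {S : Str X} [LE.Structure X]

/-- In a rich structure, enumerated finitely generated substructures with the same type over `A`
are conjugate over `A`. -/
theorem Compat.aut_of_sameTp (hc : Compat S) (hS : S.Rich) {A B B' : LE.Substructure X}
    (hA : A.FG) (hB : B.FG) (e : B ≃ B')
    (h : SameTp A (fun b : B => (b : X)) (fun b : B => (e b : X))) :
    ∃ σ : X ≃[LE] X, (∀ a ∈ A, σ a = a) ∧ ∀ b : B, σ b = e b := by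
  classical
  have hv := hS.valid
  -- the two enumerations of the generated substructures
  obtain ⟨u, hu⟩ : ∃ u : A ⊕ B → X, u = Sum.elim (fun a : A => (a : X)) (fun b : B => (b : X)) :=
    ⟨_, rfl⟩
  obtain ⟨u', hu'⟩ : ∃ u' : A ⊕ B → X,
    u' = Sum.elim (fun a : A => (a : X)) (fun b : B => (e b : X)) := ⟨_, rfl⟩
  have hφ : ∀ φ : LE.Formula (A ⊕ B), φ.Realize u ↔ φ.Realize u' := by
    intro φ; rw [hu, hu']; exact h φ
  have heq : ∀ i j, u i = u j ↔ u' i = u' j := by
    intro i j
    have := hφ (Term.equal (Term.var i) (Term.var j))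
    simpa [Formula.realize_equal] using this
  have hlt : ∀ i j, S.lt (u i) (u j) ↔ S.lt (u' i) (u' j) := by
    intro i j
    have := hφ (Relations.formula ltE ![Term.var i, Term.var j])
    rw [Formula.realize_rel, Formula.realize_rel, hc.lt, hc.lt] at this
    simpa using this
  have hR : ∀ i j k, S.R (u i) (u j) (u k) ↔ S.R (u' i) (u' j) (u' k) := by
    intro i j k
    have := hφ (Relations.formula rE ![Term.var i, Term.var j, Term.var k])
    rw [Formula.realize_rel, Formula.realize_rel, hc.R, hc.R] at this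
    simpa using this
  have hf : ∀ i j, S.f (u i) = u j ↔ S.f (u' i) = u' j := by
    intro i j
    have := hφ (Term.equal (Term.func fE ![Term.var i]) (Term.var j))
    rw [Formula.realize_equal, Formula.realize_equal, Term.realize_func, Term.realize_func,
      hc.f, hc.f] at this
    simpa using this
  have hg : ∀ i j, S.g (u i) = u j ↔ S.g (u' i) = u' j := by
    intro i j
    have := hφ (Term.equal (Term.func gE ![Term.var i]) (Term.var j))
    rw [Formula.realize_equal, Formula.realize_equal, Term.realize_func, Term.realize_func,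
      hc.g, hc.g] at this
    simpa using this
  have hmem : ∀ i, u i ∈ A ⊔ B := by
    intro i
    rw [hu]
    rcases i with i | i
    · exact (hc.mem_sup A B).2 (Or.inl i.2)
    · exact (hc.mem_sup A B).2 (Or.inr i.2)
  have hsur : ∀ x ∈ A ⊔ B, ∃ i, u i = x := by
    intro x hx
    rcases (hc.mem_sup A B).1 hx with h1 | h1
    · exact ⟨Sum.inl ⟨x, h1⟩, by rw [hu]; rfl⟩
    · exact ⟨Sum.inr ⟨x, h1⟩, by rw [hu]; rfl⟩
  obtain ⟨ρ, hρ⟩ : ∃ ρ : X → X, ρ = fun x => if hx : ∃ i, u i = x then u' hx.choose else x :=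
    ⟨_, rfl⟩
  have hρu : ∀ i, ρ (u i) = u' i := by
    intro i
    have hx : ∃ j, u j = u i := ⟨i, rfl⟩
    rw [hρ]
    simp only [dif_pos hx]
    exact (heq _ _).1 hx.choose_spec
  have cf : ∀ x ∈ ((A ⊔ B : LE.Substructure X) : Set X), S.f x ∈ ((A ⊔ B :
    LE.Substructure X) : Set X) := fun x hx => hc.mem_f _ hx
  have cg : ∀ x ∈ ((A ⊔ B : LE.Substructure X) : Set X), S.g x ∈ ((A ⊔ B :
    LE.Substructure X) : Set X) := fun x hx => hc.mem_g _ hx
  have hf' : ∀ x ∈ ((A ⊔ B : LE.Substructure X) : Set X), ρ (S.f x) = S.f (ρ x) := by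
    intro x hx
    obtain ⟨i, rfl⟩ := hsur x hx
    obtain ⟨j, hj⟩ := hsur _ (cf _ hx)
    rw [← hj, hρu, hρu]
    exact ((hf i j).1 hj.symm).symm
  have hg' : ∀ x ∈ ((A ⊔ B : LE.Substructure X) : Set X), ρ (S.g x) = S.g (ρ x) := by
    intro x hx
    obtain ⟨i, rfl⟩ := hsur x hx
    obtain ⟨j, hj⟩ := hsur _ (cg _ hx)
    rw [← hj, hρu, hρu]
    exact ((hg i j).1 hj.symm).symm
  have hinj : InjOn ρ ((A ⊔ B : LE.Substructure X) : Set X) := by
    intro x hx y hy hxy
    obtain ⟨i, rfl⟩ := hsur x hx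
    obtain ⟨j, rfl⟩ := hsur y hy
    rw [hρu, hρu] at hxy
    exact (heq i j).2 hxy
  have hP : PIso S S ((A ⊔ B : LE.Substructure X) : Set X) ρ := by
    refine ⟨cf, cg, hinj, hf', hg', ?_, ?_⟩
    · intro x hx y hy
      obtain ⟨i, rfl⟩ := hsur x hx
      obtain ⟨j, rfl⟩ := hsur y hy
      rw [hρu, hρu]
      exact hlt i j
    · intro x hx y z hy hz hne
      have hyP : y ∈ ((A ⊔ B : LE.Substructure X) : Set X) := hy.1.mem cf cg hx
      have hzP : z ∈ ((A ⊔ B : LE.Substructure X) : Set X) := hz.1.mem cf cg hx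
      have e1 : S.Bel (ρ y) (ρ x) :=
        ⟨reach_of_hom cf cg hf' hg' hx hy.1, fun e' => hy.2 (hinj hyP hx e')⟩
      have e2 : S.Bel (ρ z) (ρ x) :=
        ⟨reach_of_hom cf cg hf' hg' hx hz.1, fun e' => hz.2 (hinj hzP hx e')⟩
      rw [← hv.R_top trivial hy hz hne,
        ← hv.R_top trivial e1 e2 (fun e' => hne (hinj hyP hzP e'))]
      obtain ⟨i, rfl⟩ := hsur x hx
      obtain ⟨j, rfl⟩ := hsur y hyP
      obtain ⟨k, rfl⟩ := hsur z hzP
      rw [hρu, hρu, hρu]
      exact hR i j k
  obtain ⟨σ, hσ⟩ := hc.exists_aut hS (hc.finite_of_fg hS (hA.sup hB)) hP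
  refine ⟨σ, fun a ha => ?_, fun b => ?_⟩
  · have h1 : u (Sum.inl ⟨a, ha⟩) = a := by rw [hu]; rfl
    have h2 := hρu (Sum.inl ⟨a, ha⟩)
    rw [h1] at h2
    rw [hσ a (h1 ▸ hmem _), h2, hu']
    rfl
  · have h1 : u (Sum.inr b) = b := by rw [hu]; rfl
    have h2 := hρu (Sum.inr b)
    rw [h1] at h2
    rw [hσ b (h1 ▸ hmem _), h2, hu']
    rfl

/-- The independence relation of a rich structure is a SWIR. -/
theorem Compat.isSWIR (hc : Compat S) (hS : S.Rich) : IsSWIR LE X S.ind where
  inv := fun σ _ _ _ _ _ _ h => hc.ind_inv σ h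
  mon_right := fun _ _ _ _ _ _ _ _ h => hc.ind_mon_right h
  mon_left := fun _ _ _ _ _ _ _ _ h => hc.ind_mon_left h
  tr_right := fun _ _ _ _ _ _ _ _ h h' => hc.ind_tr_right hS.valid h h'
  tr_left := fun _ _ _ _ _ _ _ _ h h' => hc.ind_tr_left hS.valid h h'
  ex := by
    intro A B C hA hB hC
    obtain ⟨σ, h1, h2⟩ := hc.ind_ex hS A B C hA hB hC
    refine ⟨B.map σ.toHom, Equiv.ofBijective
      (fun b : B => (⟨σ b, ⟨b, b.2, rfl⟩⟩ : (B.map σ.toHom : LE.Substructure X))) ⟨?_, ?_⟩,
      hB.map _, ?_, h2⟩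
    · intro b b' hbb
      exact Subtype.ext (σ.injective (congrArg Subtype.val hbb))
    · rintro ⟨_, ⟨b, hb, rfl⟩⟩
      exact ⟨⟨b, hb⟩, rfl⟩
    · exact sameTp_of_aut σ h1 (fun b => rfl)
  sta := by
    intro A B C B' C' hA hB hC hB' hC' e k he hk h h'
    obtain ⟨σ, s1, s2⟩ := hc.aut_of_sameTp hS hA hB e he
    obtain ⟨τ, t1, t2⟩ := hc.aut_of_sameTp hS hA hC k hk
    have hBm : B.map σ.toHom = B' := by
      ext x
      constructor
      · rintro ⟨b, hb, rfl⟩
        have : σ.toHom b = e ⟨b, hb⟩ := s2 ⟨b, hb⟩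
        rw [this]; exact (e ⟨b, hb⟩).2
      · intro hx
        refine ⟨(e.symm ⟨x, hx⟩ : B), (e.symm ⟨x, hx⟩).2, ?_⟩
        have : σ.toHom (e.symm ⟨x, hx⟩ : B) = e (e.symm ⟨x, hx⟩) := s2 _
        rw [this, Equiv.apply_symm_apply]
    have hCm : C.map τ.toHom = C' := by
      ext x
      constructor
      · rintro ⟨b, hb, rfl⟩
        have : τ.toHom b = k ⟨b, hb⟩ := t2 ⟨b, hb⟩
        rw [this]; exact (k ⟨b, hb⟩).2
      · intro hx
        refine ⟨(k.symm ⟨x, hx⟩ : C), (k.symm ⟨x, hx⟩).2, ?_⟩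
        have : τ.toHom (k.symm ⟨x, hx⟩ : C) = k (k.symm ⟨x, hx⟩) := t2 _
        rw [this, Equiv.apply_symm_apply]
    rw [← hBm, ← hCm] at h'
    obtain ⟨ρ, r1, r2, r3⟩ := hc.ind_sta hS A B C hA hB hC σ τ s1 t1 h h'
    refine sameTp_of_aut ρ r1 ?_
    rintro (b | c)
    · exact (r2 b b.2).trans (s2 b)
    · exact (r3 c c.2).trans (t2 c)

end H92SWIR
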